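import Mathlib

/-!
Algebraic part for the joint distribution of left-to-right and right-to-left maxima on the
permutations avoiding the bivincular pattern of `MP_0ade3f_co`.
Everything lives in a commutative ring with a nilpotent element `x`.
-/

namespace Pool.Agent.H176.Fish

open Finset PowerSeries

variable {R : Type*} [CommRing R]

/-- `qp r t j = (1 - t) (1 - t r) ... (1 - t r^(j-1))`. -/
def qp (r t : R) (j : ℕ) : R := ∏ i ∈ range j, (1 - t * r ^ i)

theorem qp_zero (r t : R) : qp r t 0 = 1 := by simp [qp]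

theorem qp_succ (r t : R) (j : ℕ) : qp r t (j + 1) = qp r t j * (1 - t * r ^ j) := by
  simp [qp, prod_range_succ]

theorem dvd_factor (x v : R) (i : ℕ) : x ∣ 1 - (1 - v * x) * (1 - x) ^ i := by
  have h1 : (1 - x) - 1 ∣ (1 - x) ^ i - 1 ^ i := sub_dvd_pow_sub_pow _ _ _
  have h2 : x ∣ (1 - x) ^ i - 1 := by
    have : (1 - x) - 1 = -x := by ring
    rw [this, one_pow] at h1
    exact (neg_dvd).1 h1
  obtain ⟨c, hc⟩ := h2
  have : (1 - x) ^ i = 1 + x * c := by rw [← hc]; ring
  rw [this]
  exact ⟨v - c + v * x * c, by ring⟩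

theorem pow_dvd_qp (x v : R) (j : ℕ) : x ^ j ∣ qp (1 - x) (1 - v * x) j := by
  induction j with
  | zero => simp
  | succ j ih =>
    rw [qp_succ, pow_succ]
    exact mul_dvd_mul ih (dvd_factor x v j)

theorem qp_eq_zero {x : R} {N : ℕ} (hx : x ^ N = 0) (v : R) {j : ℕ} (hj : N ≤ j) :
    qp (1 - x) (1 - v * x) j = 0 := by
  obtain ⟨c, hc⟩ := pow_dvd_qp x v j
  rw [hc, ← Nat.sub_add_cancel hj, pow_add, hx]; simp

/-- the functional `s^j ↦ qp r t j`, cut off at `N`. -/
noncomputable def L (N : ℕ) (r t : R) : PowerSeries R →ₗ[R] R where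
  toFun f := ∑ j ∈ range N, coeff j f * qp r t j
  map_add' f g := by simp [add_mul, sum_add_distrib]
  map_smul' c f := by simp [mul_sum, mul_assoc]

theorem L_apply (N : ℕ) (r t : R) (f : PowerSeries R) :
    L N r t f = ∑ j ∈ range N, coeff j f * qp r t j := rfl

theorem L_X_mul {N : ℕ} {r t : R} (h : qp r t N = 0) (f : PowerSeries R) :
    L N r t (X * f) = ∑ j ∈ range N, coeff j f * qp r t (j + 1) := by
  rw [L_apply]
  have h1 : ∑ j ∈ range (N + 1), coeff j (X * f) * qp r t j
      = ∑ j ∈ range N, coeff j (X * f) * qp r t j := by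
    rw [sum_range_succ, h]; simp
  rw [← h1, sum_range_succ']
  simp [coeff_succ_X_mul]

/-- the defining property of the functional. -/
theorem L_one_sub {N : ℕ} {r t : R} (h : qp r t N = 0) (f : PowerSeries R) :
    L N r t ((1 - X) * f) = t * L N r t (rescale r f) := by
  rw [sub_mul, one_mul, map_sub, L_X_mul h, L_apply, L_apply, ← sum_sub_distrib, mul_sum]
  refine sum_congr rfl fun j _ => ?_
  rw [coeff_rescale, qp_succ]; ring

theorem L_one {N : ℕ} (hN : 0 < N) (r t : R) : L N r t 1 = 1 := by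
  rw [L_apply]
  obtain ⟨M, rfl⟩ : ∃ M, N = M + 1 := ⟨N - 1, by omega⟩
  rw [sum_range_succ']
  simp [coeff_one, qp_zero]

theorem L_C_mul (N : ℕ) (r t c : R) (f : PowerSeries R) :
    L N r t (C c * f) = c * L N r t f := by
  have : C c * f = c • f := by rw [smul_eq_C_mul]
  rw [this, map_smul, smul_eq_mul]

/-- `1/(1 - s)`. -/
noncomputable def y : PowerSeries R := PowerSeries.mk fun _ => 1

theorem one_sub_mul_y : (1 - X) * (y : PowerSeries R) = 1 := by
  rw [mul_comm]; exact PowerSeries.mk_one_mul_one_sub_eq_one R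

theorem y_eq : (y : PowerSeries R) = 1 + X * y := by
  linear_combination (one_sub_mul_y (R := R))

/-- `1/(1 - r s)`. -/
noncomputable def yr (r : R) : PowerSeries R := rescale r y

theorem one_sub_mul_yr (r : R) : (1 - C r * X) * (yr r : PowerSeries R) = 1 := by
  have h := congrArg (rescale r) (one_sub_mul_y (R := R))
  rw [map_mul, map_sub, map_one, rescale_X] at h
  exact h

theorem yr_eq (r : R) : yr r = 1 + C r * X * yr r := by
  linear_combination (one_sub_mul_yr (R := R) r)

theorem y_sub_yr (x : R) : (y : PowerSeries R) - yr (1 - x) = C x * X * y * yr (1 - x) := by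
  have h1 := one_sub_mul_y (R := R)
  have h2 := one_sub_mul_yr (R := R) (1 - x)
  have h3 : (C (1 - x) : PowerSeries R) = 1 - C x := by simp
  rw [h3] at h2
  linear_combination (-y) * h2 + yr (1 - x) * h1

theorem geom (x : R) (n : ℕ) :
    C x * X * ∑ i ∈ range (n + 1), (y : PowerSeries R) ^ (i + 1) * yr (1 - x) ^ (n + 1 - i)
      = y ^ (n + 1) - yr (1 - x) ^ (n + 1) := by
  have h := (Commute.all (y : PowerSeries R) (yr (1 - x))).geom_sum₂_mul (n + 1)
  rw [y_sub_yr] at h
  rw [← h, mul_sum, sum_mul]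
  refine sum_congr rfl fun i hi => ?_
  have hi' : i < n + 1 := mem_range.1 hi
  have e : n + 1 - i = (n + 1 - 1 - i) + 1 := by omega
  rw [e]; ring

theorem geom1 (n : ℕ) :
    X * ∑ i ∈ range (n + 1), (y : PowerSeries R) ^ (i + 1) = y ^ (n + 1) - 1 := by
  induction n with
  | zero => simp; linear_combination -(y_eq (R := R))
  | succ n ih =>
    rw [sum_range_succ, mul_add, ih]
    linear_combination (-y ^ (n + 1)) * (y_eq (R := R))

/-- potential of a fresh mark. -/
noncomputable def G (N : ℕ) (x v : R) (d : ℕ) : R :=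
  L N (1 - x) (1 - v * x) (y ^ (d + 1))

/-- `r` times the potential of a state, the current last entry being counted. -/
noncomputable def Th (N : ℕ) (x v : R) (c d : ℕ) : R :=
  L N (1 - x) (1 - v * x) (y ^ (d + 1) * (C (v - 1) + C (1 - v * x) * yr (1 - x) ^ (c + 1)))

/-- the sum over the children of second kind. -/
theorem child2 (x v : R) (c d : ℕ) :
    C x * X * ∑ i ∈ range (d + 1), (y ^ (d - i + 1) *
        (C (v - 1) + C (1 - v * x) * yr (1 - x) ^ (c + i + 1)) : PowerSeries R)
      = C (x * (v - 1)) * (y ^ (d + 1) - 1)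
        + C (1 - v * x) * yr (1 - x) ^ c * (y ^ (d + 1) - yr (1 - x) ^ (d + 1)) := by
  have h1 := geom1 (R := R) d
  have h2 := geom (R := R) x d
  rw [← sum_range_reflect] at h1 h2
  have e : ∀ i ∈ range (d + 1), (y ^ (d - i + 1) *
        (C (v - 1) + C (1 - v * x) * yr (1 - x) ^ (c + i + 1)) : PowerSeries R)
      = C (v - 1) * y ^ (d + 1 - 1 - i + 1)
        + C (1 - v * x) * yr (1 - x) ^ c *
          (y ^ (d + 1 - 1 - i + 1) * yr (1 - x) ^ (d + 1 - (d + 1 - 1 - i))) := by
    intro i hi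
    have hi' : i < d + 1 := mem_range.1 hi
    have e1 : d - i + 1 = d + 1 - 1 - i + 1 := by omega
    have e2 : d + 1 - (d + 1 - 1 - i) = i + 1 := by omega
    rw [e1, e2, show c + i + 1 = c + (i + 1) by ring, pow_add (yr (1 - x)) c (i + 1)]
    ring
  rw [sum_congr rfl e, sum_add_distrib, ← mul_sum, ← mul_sum, map_mul]
  linear_combination (C x * C (v - 1)) * h1 + (C (1 - v * x) * yr (1 - x) ^ c) * h2

/-- the sum over the children of first kind. -/
theorem child1 (x v : R) (c d : ℕ) :
    C x * X * ∑ i ∈ range (c + 1), (y ^ (c + d - i + 1) *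
        (C (v - 1) + C (1 - v * x) * yr (1 - x) ^ (i + 1)) : PowerSeries R)
      = C (x * (v - 1)) * y ^ d * (y ^ (c + 1) - 1)
        + C (1 - v * x) * y ^ d * (y ^ (c + 1) - yr (1 - x) ^ (c + 1)) := by
  have h1 := geom1 (R := R) c
  have h2 := geom (R := R) x c
  rw [← sum_range_reflect] at h1 h2
  have e : ∀ i ∈ range (c + 1), (y ^ (c + d - i + 1) *
        (C (v - 1) + C (1 - v * x) * yr (1 - x) ^ (i + 1)) : PowerSeries R)
      = C (v - 1) * y ^ d * y ^ (c + 1 - 1 - i + 1)
        + C (1 - v * x) * y ^ d *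
          (y ^ (c + 1 - 1 - i + 1) * yr (1 - x) ^ (c + 1 - (c + 1 - 1 - i))) := by
    intro i hi
    have hi' : i < c + 1 := mem_range.1 hi
    have e1 : c + d - i + 1 = d + (c + 1 - 1 - i + 1) := by omega
    have e2 : c + 1 - (c + 1 - 1 - i) = i + 1 := by omega
    rw [e1, e2, pow_add y d]
    ring
  rw [sum_congr rfl e, sum_add_distrib, ← mul_sum, ← mul_sum, map_mul]
  linear_combination (C x * C (v - 1) * y ^ d) * h1 + (C (1 - v * x) * y ^ d) * h2

/-- `(y^(m+1) - 1)/s`. -/
noncomputable def gm (m : ℕ) : PowerSeries R := ∑ i ∈ range (m + 1), y ^ (i + 1)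

theorem X_mul_gm (m : ℕ) : X * gm m = (y : PowerSeries R) ^ (m + 1) - 1 := geom1 m

theorem X_mul_rescale_gm (r : R) (m : ℕ) :
    C r * X * rescale r (gm m) = (yr r : PowerSeries R) ^ (m + 1) - 1 := by
  have h := congrArg (rescale r) (X_mul_gm (R := R) m)
  rw [map_mul, map_sub, map_one, rescale_X, map_pow] at h
  exact h

theorem X_cancel {f g : PowerSeries R} (h : X * f = X * g) : f = g := by
  ext n
  have := congrArg (coeff (n + 1)) h
  simpa [coeff_succ_X_mul] using this

/-- equation for a fresh mark. -/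
theorem G_eq {N : ℕ} {x : R} (hx : x ^ N = 0) (hN : 0 < N) (v : R) (d : ℕ) :
    (1 - x) * (G N x v d - 1) = x * ∑ i ∈ range (d + 1), Th N x v i (d - i) := by
  have hq : qp (1 - x) (1 - v * x) N = 0 := qp_eq_zero hx v le_rfl
  have key : C x * ∑ i ∈ range (d + 1), (y ^ (d - i + 1) *
        (C (v - 1) + C (1 - v * x) * yr (1 - x) ^ (i + 1)) : PowerSeries R)
      = C (1 - x) * gm d - C ((1 - v * x) * (1 - x)) * rescale (1 - x) (gm d) := by
    apply X_cancel
    have h := child2 (R := R) x v 0 d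
    simp only [zero_add, pow_zero, mul_one] at h
    have h1 := X_mul_gm (R := R) d
    have h2 := X_mul_rescale_gm (R := R) (1 - x) d
    have e1 : (C (x * (v - 1)) : PowerSeries R) = C (1 - x) - C (1 - v * x) := by
      rw [← map_sub]; congr 1; ring
    rw [map_mul (C : R →+* PowerSeries R) (1 - v * x)]
    rw [e1] at h
    linear_combination h - C (1 - x) * h1 + C (1 - v * x) * h2
  have := congrArg (L N (1 - x) (1 - v * x)) key
  rw [L_C_mul, map_sum (L N (1 - x) (1 - v * x)), map_sub (L N (1 - x) (1 - v * x)), L_C_mul,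
    L_C_mul, mul_comm (1 - v * x) (1 - x), mul_assoc (1 - x) (1 - v * x),
    ← L_one_sub hq] at this
  have e2 : ((1 : PowerSeries R) - X) * gm d = gm d - (y ^ (d + 1) - 1) := by
    rw [← X_mul_gm]; ring
  rw [e2, map_sub (L N (1 - x) (1 - v * x)) (gm d),
    map_sub (L N (1 - x) (1 - v * x)) (y ^ (d + 1)), L_one hN] at this
  unfold Th G
  rw [this]; ring

/-- equation for a state. -/
theorem Th_eq {N : ℕ} {x : R} (hx : x ^ N = 0) (hN : 0 < N) (v : R) (c d : ℕ) :
    Th N x v c d - (1 - x) * (v - 1) * G N x v d - (1 - x)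
      = x * (∑ i ∈ range (c + 1), Th N x v i (c + d - i)
        + ∑ i ∈ range (d + 1), Th N x v (c + 1 + i) (d - i)) := by
  have hq : qp (1 - x) (1 - v * x) N = 0 := qp_eq_zero hx v le_rfl
  have key : C x * (∑ i ∈ range (c + 1), (y ^ (c + d - i + 1) *
        (C (v - 1) + C (1 - v * x) * yr (1 - x) ^ (i + 1)) : PowerSeries R)
      + ∑ i ∈ range (d + 1), (y ^ (d - i + 1) *
        (C (v - 1) + C (1 - v * x) * yr (1 - x) ^ (c + 1 + i + 1)) : PowerSeries R))
      = y ^ (d + 1) * (C (x * (v - 1)) + C (1 - v * x) * yr (1 - x) ^ (c + 1))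
        + C (1 - x) * ((1 - X) * gm (c + d + 1) - 1)
        - C ((1 - v * x) * (1 - x)) * rescale (1 - x) (gm (c + d + 1)) := by
    apply X_cancel
    have h := child2 (R := R) x v (c + 1) d
    have h0 := child1 (R := R) x v c d
    have h1 := X_mul_gm (R := R) (c + d + 1)
    have h2 := X_mul_rescale_gm (R := R) (1 - x) (c + d + 1)
    have e1 : (C (x * (v - 1)) : PowerSeries R) = C (1 - x) - C (1 - v * x) := by
      rw [← map_sub]; congr 1; ring
    have hy := y_eq (R := R)
    rw [map_mul (C : R →+* PowerSeries R) (1 - v * x)]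
    rw [e1] at h h0 ⊢
    have e3 : (y : PowerSeries R) ^ (d + 1) - y ^ d = X * y ^ (d + 1) := by
      linear_combination y ^ d * hy
    have e4 : (y : PowerSeries R) ^ (c + d + 1 + 1) * (1 - X) = y ^ (c + d + 1) := by
      linear_combination y ^ (c + d + 1) * one_sub_mul_y (R := R)
    linear_combination h0 + h - C (1 - x) * (1 - X) * h1 + C (1 - v * x) * h2
      - C (1 - x) * e4
      + (C (1 - x) - C (1 - v * x) + C (1 - v * x) * yr (1 - x) ^ (c + 1)) * e3
  have := congrArg (L N (1 - x) (1 - v * x)) key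
  rw [L_C_mul, map_add (L N (1 - x) (1 - v * x)), map_sum (L N (1 - x) (1 - v * x)),
    map_sum (L N (1 - x) (1 - v * x)), map_sub (L N (1 - x) (1 - v * x)),
    map_add (L N (1 - x) (1 - v * x)), L_C_mul, L_C_mul,
    mul_comm (1 - v * x) (1 - x), mul_assoc (1 - x) (1 - v * x),
    ← L_one_sub hq, map_sub (L N (1 - x) (1 - v * x)) _ 1, L_one hN] at this
  unfold Th G
  rw [this]
  have e5 : (y ^ (d + 1) * (C (x * (v - 1)) + C (1 - v * x) * yr (1 - x) ^ (c + 1)) :
      PowerSeries R) = y ^ (d + 1) * (C (v - 1) + C (1 - v * x) * yr (1 - x) ^ (c + 1))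
        - C ((1 - x) * (v - 1)) * y ^ (d + 1) := by
    have : (C (x * (v - 1)) : PowerSeries R) = C (v - 1) - C ((1 - x) * (v - 1)) := by
      rw [← map_sub]; congr 1; ring
    rw [this]; ring
  rw [e5, map_sub (L N (1 - x) (1 - v * x)), L_C_mul]; ring

end Pool.Agent.H176.Fish
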