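import Pool.Agent.H176.Fish.Alg

namespace Pool.Agent.H176.Fish

open Finset PowerSeries

variable {R : Type*} [CommRing R]

/-- The functional equation for `z = h + y`. -/
theorem z_func {x p : R} {h : PowerSeries R}
    (hh : (1 - C (1 - p * x) * X) * h - rescale (1 - x) h = - (C (p * x) * X * y)) :
    (1 - C (1 - p * x) * X) * (h + y) - rescale (1 - x) (h + y) = 1 - yr (1 - x) := by
  have e : rescale (1 - x) (y : PowerSeries R) = yr (1 - x) := rfl
  have e1 : (C (1 - p * x) : PowerSeries R) = 1 - C (p * x) := by simp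
  rw [map_add, e]
  rw [e1] at hh ⊢
  linear_combination hh + one_sub_mul_y (R := R)

theorem coeff_rec {x p : R} {z : PowerSeries R}
    (hz : (1 - C (1 - p * x) * X) * z - rescale (1 - x) z = 1 - yr (1 - x)) (m : ℕ) :
    (1 - p * x) * coeff m z
      = (1 - (1 - x) ^ (m + 1)) * coeff (m + 1) z + (1 - x) ^ (m + 1) := by
  have h := congrArg (coeff (m + 1)) hz
  rw [map_sub, sub_mul, one_mul, map_sub, mul_assoc, coeff_C_mul, coeff_succ_X_mul,
    coeff_rescale, map_sub, coeff_one, yr, coeff_rescale, y, coeff_mk] at h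
  simp only [Nat.add_eq_zero_iff, one_ne_zero, and_false, if_false] at h
  linear_combination -h

/-- the explicit solution. -/
def w (N : ℕ) (ri r a : R) (m : ℕ) : R := ∑ k ∈ range N, ri ^ (k * m) * qp r a k

theorem w_rec {N : ℕ} (hN : 0 < N) {ri r a : R} (hri : ri * r = 1) (ha : qp r a N = 0) (m : ℕ) :
    a * w N ri r a m = (1 - r ^ (m + 1)) * w N ri r a (m + 1) + r ^ (m + 1) := by
  have key : ∀ k, a * (ri ^ (k * m) * qp r a k)
      = ri ^ (k * (m + 1)) * qp r a k - ri ^ (k * (m + 1)) * qp r a (k + 1) := by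
    intro k
    rw [qp_succ, mul_add, mul_one, pow_add]
    have : ri ^ k * r ^ k = 1 := by rw [← mul_pow, hri, one_pow]
    linear_combination (-(a * ri ^ (k * m) * qp r a k)) * this
  have h2 : ∑ k ∈ range N, ri ^ (k * (m + 1)) * qp r a (k + 1)
      = r ^ (m + 1) * (w N ri r a (m + 1) - 1) := by
    obtain ⟨M, rfl⟩ : ∃ M, N = M + 1 := ⟨N - 1, by omega⟩
    have e1 : ∑ k ∈ range (M + 1), ri ^ (k * (m + 1)) * qp r a (k + 1)
        = ∑ k ∈ range M, ri ^ (k * (m + 1)) * qp r a (k + 1) := by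
      rw [sum_range_succ, ha]; simp
    have e2 : w (M + 1) ri r a (m + 1)
        = ∑ k ∈ range M, ri ^ ((k + 1) * (m + 1)) * qp r a (k + 1) + 1 := by
      rw [w, sum_range_succ']; simp [qp_zero]
    rw [e1, e2, add_sub_cancel_right, mul_sum]
    refine sum_congr rfl fun k _ => ?_
    have e : (k + 1) * (m + 1) = k * (m + 1) + (m + 1) := by ring
    have : ri ^ (m + 1) * r ^ (m + 1) = 1 := by rw [← mul_pow, hri, one_pow]
    rw [e, pow_add]
    linear_combination (-(ri ^ (k * (m + 1)) * qp r a (k + 1))) * this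
  rw [w, mul_sum, sum_congr rfl fun k _ => key k, sum_sub_distrib, h2, w]
  ring

theorem coeff_z {N : ℕ} {x : R} (hx : x ^ N = 0) (hN : 0 < N) {p ri : R}
    (hri : ri * (1 - x) = 1) {z : PowerSeries R}
    (hz : (1 - C (1 - p * x) * X) * z - rescale (1 - x) z = 1 - yr (1 - x)) (m : ℕ) :
    coeff m z = w N ri (1 - x) (1 - p * x) m := by
  have hnil : IsNilpotent (p * x) := ⟨N, by rw [mul_pow, hx, mul_zero]⟩
  obtain ⟨ai, hai⟩ : ∃ ai, ai * (1 - p * x) = 1 := by
    obtain ⟨u, hu⟩ := hnil.isUnit_one_sub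
    exact ⟨↑u⁻¹, by rw [← hu]; simp⟩
  have key : ∀ j m, x ^ j ∣ coeff m z - w N ri (1 - x) (1 - p * x) m := by
    intro j
    induction j with
    | zero => intro m; simp
    | succ j ih =>
      intro m
      have h1 := coeff_rec hz m
      have h2 := w_rec hN hri (qp_eq_zero hx p le_rfl) m
      obtain ⟨c, hc⟩ := ih (m + 1)
      have h3 : x ∣ 1 - (1 - x) ^ (m + 1) := by
        have := dvd_factor x 0 (m + 1)
        simpa using this
      obtain ⟨e, he⟩ := h3
      refine ⟨ai * e * c, ?_⟩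
      have h4 : (1 - p * x) * (coeff m z - w N ri (1 - x) (1 - p * x) m)
          = x * e * (x ^ j * c) := by
        rw [← hc, ← he]; linear_combination h1 - h2
      have h5 : ai * _ = ai * _ := congrArg (fun t => ai * t) h4
      rw [← mul_assoc ai, hai, one_mul] at h5
      rw [h5, pow_succ]; ring
  have := key N m
  rw [hx, zero_dvd_iff, sub_eq_zero] at this
  exact this

theorem final_alg {N : ℕ} {x : R} (hx : x ^ N = 0) (p v : R) {z : PowerSeries R}
    (hz : (1 - C (1 - p * x) * X) * z - rescale (1 - x) z = 1 - yr (1 - x)) :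
    x * L N (1 - x) (1 - v * x)
        ((C p * y + C (p - 1) * (z - y)) * (C (v - 1) + C (1 - v * x) * yr (1 - x)))
      = (1 - x) * (p * v * x * L N (1 - x) (1 - v * x) z) := by
  have hq : qp (1 - x) (1 - v * x) N = 0 := qp_eq_zero hx v le_rfl
  set ℓ := L N (1 - x) (1 - v * x) with hℓ
  have i1 : (1 - v * x) * ℓ (rescale (1 - x) (z * y)) = ℓ z := by
    rw [hℓ, ← L_one_sub hq]
    congr 1
    linear_combination z * one_sub_mul_y (R := R)
  have i3 : (1 - v * x) * ℓ (yr (1 - x) * yr (1 - x)) = ℓ y := by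
    have : (yr (1 - x) * yr (1 - x) : PowerSeries R) = rescale (1 - x) (y * y) := by
      rw [map_mul]; rfl
    rw [this, hℓ, ← L_one_sub hq]
    congr 1
    linear_combination y * one_sub_mul_y (R := R)
  have i4 : (C (1 - x) : PowerSeries R) * rescale (1 - x) (z * y)
      = C (1 - p * x) * z + C ((1 - x) - (1 - p * x)) * (yr (1 - x) * z)
        - C (1 - x) * yr (1 - x) + C (1 - x) * (yr (1 - x) * yr (1 - x)) := by
    have e : rescale (1 - x) (y : PowerSeries R) = yr (1 - x) := rfl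
    rw [map_mul, e]
    have e2 : (C ((1 - x) - (1 - p * x)) : PowerSeries R) = C (1 - x) - C (1 - p * x) := by
      rw [map_sub]
    rw [e2]
    linear_combination (-(C (1 - x) * yr (1 - x))) * hz
      + (C (1 - p * x) * z) * yr_eq (R := R) (1 - x)
  have i5 : (C x * (y * yr (1 - x)) : PowerSeries R) = y - C (1 - x) * yr (1 - x) := by
    have h1 := one_sub_mul_y (R := R)
    have h2 := one_sub_mul_yr (R := R) (1 - x)
    have h3 : (C x : PowerSeries R) = 1 - C (1 - x) := by simp
    rw [h3]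
    linear_combination (y) * h2 - C (1 - x) * yr (1 - x) * h1
  have j4 := congrArg ℓ i4
  rw [map_add ℓ, map_sub ℓ, map_add ℓ] at j4
  simp only [hℓ, L_C_mul] at j4
  simp only [← hℓ] at j4
  have j5 := congrArg ℓ i5
  rw [map_sub ℓ] at j5
  simp only [hℓ, L_C_mul] at j5
  simp only [← hℓ] at j5
  have e6 : ((C p * y + C (p - 1) * (z - y)) * (C (v - 1) + C (1 - v * x) * yr (1 - x)) :
      PowerSeries R) = C (v - 1) * y + C (1 - v * x) * (y * yr (1 - x))
        + C ((p - 1) * (v - 1)) * z + C ((p - 1) * (1 - v * x)) * (yr (1 - x) * z) := by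
    have : (C p : PowerSeries R) = C (p - 1) + 1 := by simp
    rw [this, map_mul, map_mul (C : R →+* PowerSeries R) (p - 1) (1 - v * x)]
    ring
  rw [e6, map_add ℓ, map_add ℓ, map_add ℓ]
  simp only [hℓ, L_C_mul]
  simp only [← hℓ]
  linear_combination (1 - v * x) * j5 - (1 - v * x) * j4 + (1 - x) * i1 - (1 - x) * i3

/-- The symmetric double sum. -/
def dbl (N : ℕ) (ri x p v : R) : R :=
  ∑ m ∈ range N, ∑ k ∈ range N,
    ri ^ (k * m) * qp (1 - x) (1 - p * x) k * qp (1 - x) (1 - v * x) m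

theorem dbl_symm (N : ℕ) (ri x p v : R) : dbl N ri x p v = dbl N ri x v p := by
  rw [dbl, dbl, sum_comm]
  refine sum_congr rfl fun m _ => sum_congr rfl fun k _ => ?_
  rw [mul_comm m k]; ring

theorem L_z {N : ℕ} {x : R} (hx : x ^ N = 0) (hN : 0 < N) {p ri : R} (v : R)
    (hri : ri * (1 - x) = 1) {z : PowerSeries R}
    (hz : (1 - C (1 - p * x) * X) * z - rescale (1 - x) z = 1 - yr (1 - x)) :
    L N (1 - x) (1 - v * x) z = dbl N ri x p v := by
  rw [L_apply, dbl]
  refine sum_congr rfl fun m _ => ?_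
  rw [coeff_z hx hN hri hz, w, sum_mul]

end Pool.Agent.H176.Fish
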