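import Pool.Agent.H176.Fish.Defs

/-!
Combinatorial part: building the avoiding permutations by appending a last value.
-/

namespace Pool.Agent.H176.Fish

open Finset

/-- append the last value `j` -/
def app {n : ℕ} (j : Fin (n + 1)) (τ : Equiv.Perm (Fin n)) : Equiv.Perm (Fin (n + 1)) :=
  (finSuccEquiv' (Fin.last n)).trans ((Equiv.optionCongr τ).trans (finSuccEquiv' j).symm)

theorem app_last {n : ℕ} (j : Fin (n + 1)) (τ : Equiv.Perm (Fin n)) :
    app j τ (Fin.last n) = j := by
  simp [app]

theorem app_castSucc {n : ℕ} (j : Fin (n + 1)) (τ : Equiv.Perm (Fin n)) (i : Fin n) :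
    app j τ i.castSucc = j.succAbove (τ i) := by
  have : finSuccEquiv' (Fin.last n) i.castSucc = some i := by
    have := finSuccEquiv'_succAbove (Fin.last n) i
    rwa [Fin.succAbove_last] at this
  simp [app, this]

theorem app_injective {n : ℕ} :
    Function.Injective fun q : Fin (n + 1) × Equiv.Perm (Fin n) => app q.1 q.2 := by
  rintro ⟨j, τ⟩ ⟨j', τ'⟩ h
  simp only at h
  have h1 : j = j' := by rw [← app_last j τ, h, app_last]
  subst h1
  have h2 : τ = τ' := by
    ext i
    have := app_castSucc j τ i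
    rw [h, app_castSucc] at this
    rw [Fin.succAbove_right_injective this]
  rw [h2]

theorem sum_perm {n : ℕ} {M : Type*} [AddCommMonoid M] (F : Equiv.Perm (Fin (n + 1)) → M) :
    ∑ π, F π = ∑ τ : Equiv.Perm (Fin n), ∑ j : Fin (n + 1), F (app j τ) := by
  have hb : Function.Bijective
      fun q : Fin (n + 1) × Equiv.Perm (Fin n) => app q.1 q.2 := by
    rw [Fintype.bijective_iff_injective_and_card]
    refine ⟨app_injective, ?_⟩
    rw [Fintype.card_prod, Fintype.card_perm, Fintype.card_perm, Fintype.card_fin,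
      Fintype.card_fin, Nat.factorial_succ]
  rw [← hb.sum_comp, Fintype.sum_prod_type, Finset.sum_comm]

/-- positions which are last or followed by a smaller value -/
def tops {n : ℕ} (τ : Equiv.Perm (Fin n)) : Finset (Fin n) :=
  {i : Fin n | ∀ m : Fin n, (m : ℕ) = i + 1 → τ m < τ i}

/-- values which may be appended -/
def sites {n : ℕ} (τ : Equiv.Perm (Fin n)) : Finset ℕ :=
  insert 0 ((tops τ).image fun i => (τ i : ℕ) + 1)

theorem mem_tops {n : ℕ} {τ : Equiv.Perm (Fin n)} {i : Fin n} :
    i ∈ tops τ ↔ ∀ m : Fin n, (m : ℕ) = i + 1 → τ m < τ i := by simp [tops]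

theorem mem_sites {n : ℕ} {τ : Equiv.Perm (Fin n)} {a : ℕ} :
    a ∈ sites τ ↔ a = 0 ∨ ∃ i ∈ tops τ, (τ i : ℕ) + 1 = a := by simp [sites]

/-- rank of a value -/
def rk {n : ℕ} (τ : Equiv.Perm (Fin n)) (a : ℕ) : ℕ := #{t ∈ sites τ | a < t}

theorem rk_anti {n : ℕ} (τ : Equiv.Perm (Fin n)) {a b : ℕ} (h : a ≤ b) : rk τ b ≤ rk τ a := by
  refine card_le_card fun t ht => ?_
  rw [mem_filter] at ht ⊢
  exact ⟨ht.1, by omega⟩

theorem rk_strict {n : ℕ} (τ : Equiv.Perm (Fin n)) {a b : ℕ} (h : a < b) (hb : b ∈ sites τ) :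
    rk τ b < rk τ a := by
  refine card_lt_card ?_
  rw [Finset.ssubset_iff_of_subset]
  · exact ⟨b, by simp [h, hb], by simp⟩
  · intro t ht
    rw [mem_filter] at ht ⊢
    exact ⟨ht.1, by omega⟩

theorem succAbove_val {n : ℕ} (j : Fin (n + 1)) (i : Fin n) :
    ((j.succAbove i : Fin (n + 1)) : ℕ) = if (i : ℕ) < j then (i : ℕ) else i + 1 := by
  unfold Fin.succAbove
  split_ifs <;> simp_all [Fin.lt_def]

theorem last_mem_tops {n : ℕ} (τ : Equiv.Perm (Fin (n + 1))) : Fin.last n ∈ tops τ := by
  rw [mem_tops]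
  intro m hm
  have := m.2
  simp at hm
  omega

theorem mem_tops_app_castSucc {n : ℕ} (j : Fin (n + 2)) (τ : Equiv.Perm (Fin (n + 1)))
    (i : Fin (n + 1)) :
    i.castSucc ∈ tops (app j τ) ↔ i ∈ tops τ ∧ (i = Fin.last n → (j : ℕ) ≤ τ i) := by
  rw [mem_tops, mem_tops]
  constructor
  · intro h
    constructor
    · intro m hm
      have := h m.castSucc (by simpa using hm)
      rw [app_castSucc, app_castSucc] at this
      exact (Fin.strictMono_succAbove j).lt_iff_lt.1 this
    · rintro rfl
      have := h (Fin.last (n + 1)) (by simp)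
      rw [app_last, app_castSucc, Fin.lt_def, succAbove_val] at this
      split_ifs at this <;> omega
  · rintro ⟨h1, h2⟩ m hm
    rcases Fin.eq_castSucc_or_eq_last m with ⟨m', rfl⟩ | rfl
    · rw [app_castSucc, app_castSucc]
      exact (Fin.strictMono_succAbove j).lt_iff_lt.2 (h1 m' (by simpa using hm))
    · rw [app_last, app_castSucc, Fin.lt_def, succAbove_val]
      have : i = Fin.last n := by
        ext; simp at hm ⊢; omega
      have := h2 this
      split_ifs <;> omega

theorem sites_app {n : ℕ} (j : Fin (n + 2)) (τ : Equiv.Perm (Fin (n + 1))) (a : ℕ) :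
    a ∈ sites (app j τ) ↔ a = 0 ∨ a = j + 1 ∨
      ∃ i ∈ tops τ, (i = Fin.last n → (j : ℕ) ≤ τ i) ∧
        ((j.succAbove (τ i) : Fin (n + 2)) : ℕ) + 1 = a := by
  rw [mem_sites]
  constructor
  · rintro (h | ⟨i, hi, h⟩)
    · exact Or.inl h
    · rcases Fin.eq_castSucc_or_eq_last i with ⟨i', rfl⟩ | rfl
      · rw [app_castSucc] at h
        rw [mem_tops_app_castSucc] at hi
        exact Or.inr (Or.inr ⟨i', hi.1, hi.2, h⟩)
      · rw [app_last] at h
        exact Or.inr (Or.inl h.symm)
  · rintro (h | h | ⟨i, hi, hi2, h⟩)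
    · exact Or.inl h
    · exact Or.inr ⟨Fin.last _, last_mem_tops _, by rw [app_last, h]⟩
    · exact Or.inr ⟨i.castSucc, (mem_tops_app_castSucc j τ i).2 ⟨hi, hi2⟩, by
        rw [app_castSucc, h]⟩

theorem rk_app {n : ℕ} (j : Fin (n + 2)) (τ : Equiv.Perm (Fin (n + 1))) {a : ℕ}
    (ha : (j : ℕ) ≤ a) : rk (app j τ) (a + 1) = rk τ a := by
  unfold rk
  have : {t ∈ sites (app j τ) | a + 1 < t} = ({t ∈ sites τ | a < t}).image (· + 1) := by
    ext t
    rw [mem_filter, mem_image, sites_app]
    constructor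
    · rintro ⟨h | h | ⟨i, hi, hi2, h⟩, h2⟩
      · omega
      · omega
      · rw [succAbove_val] at h
        refine ⟨(τ i : ℕ) + 1, ?_, ?_⟩
        · rw [mem_filter, mem_sites]
          refine ⟨Or.inr ⟨i, hi, rfl⟩, ?_⟩
          split_ifs at h <;> omega
        · split_ifs at h <;> omega
    · rintro ⟨u, hu, rfl⟩
      rw [mem_filter, mem_sites] at hu
      obtain ⟨h | ⟨i, hi, h⟩, h2⟩ := hu
      · omega
      · refine ⟨Or.inr (Or.inr ⟨i, hi, ?_, ?_⟩), by omega⟩
        · intro _; omega
        · rw [succAbove_val]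
          split_ifs <;> omega
  rw [this, card_image_of_injective _ (add_left_injective 1)]

theorem card_sites {n : ℕ} (τ : Equiv.Perm (Fin n)) : #(sites τ) = #(tops τ) + 1 := by
  unfold sites
  rw [card_insert_of_notMem, card_image_of_injective]
  · intro a b h
    simp only [add_left_inj] at h
    exact τ.injective (Fin.ext h)
  · simp

theorem card_tops_app {n : ℕ} (j : Fin (n + 2)) (τ : Equiv.Perm (Fin (n + 1))) :
    #(tops (app j τ)) = #(tops τ) + if (j : ℕ) ≤ τ (Fin.last n) then 1 else 0 := by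
  have h1 : tops (app j τ) = insert (Fin.last (n + 1))
      (((tops τ).filter fun i => (i = Fin.last n → (j : ℕ) ≤ τ i)).map Fin.castSuccEmb) := by
    ext i
    rcases Fin.eq_castSucc_or_eq_last i with ⟨i', rfl⟩ | rfl
    · rw [mem_tops_app_castSucc]
      simp [(Fin.castSucc_lt_last i').ne]
    · simp [last_mem_tops]
  have h2 : Fin.last (n + 1) ∉
      (((tops τ).filter fun i => (i = Fin.last n → (j : ℕ) ≤ τ i)).map Fin.castSuccEmb) := by
    simp [(Fin.castSucc_lt_last _).ne]
  rw [h1, card_insert_of_notMem h2, card_map]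
  split_ifs with h
  · congr 2
    ext i
    rw [mem_filter]
    exact ⟨fun h => h.1, fun hi => ⟨hi, fun e => by rw [e]; exact h⟩⟩
  · have : (tops τ).filter (fun i => (i = Fin.last n → (j : ℕ) ≤ τ i))
        = (tops τ).erase (Fin.last n) := by
      ext i
      rw [mem_filter, mem_erase]
      constructor
      · rintro ⟨h1, h2⟩
        exact ⟨fun e => h (by rw [← e]; exact h2 e), h1⟩
      · rintro ⟨h1, h2⟩
        exact ⟨h2, fun e => absurd e h1⟩
    rw [this, card_erase_add_one (last_mem_tops τ)]; rfl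

theorem lt_rk_iff {n : ℕ} (j : Fin (n + 2)) (τ : Equiv.Perm (Fin (n + 1))) :
    rk τ ((τ (Fin.last n) : ℕ) + 1) < rk τ j ↔ (j : ℕ) ≤ τ (Fin.last n) := by
  constructor
  · intro h
    by_contra h2
    exact absurd (rk_anti τ (show (τ (Fin.last n) : ℕ) + 1 ≤ j by omega)) (by omega)
  · intro h
    exact rk_strict τ (by omega) (mem_sites.2 (Or.inr ⟨_, last_mem_tops τ, rfl⟩))

theorem av_app {n : ℕ} (j : Fin (n + 2)) (τ : Equiv.Perm (Fin (n + 1))) :
    Av (app j τ) ↔ Av τ ∧ (j : ℕ) ∈ sites τ := by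
  constructor
  · intro h
    have hs : (j : ℕ) ∈ sites τ := by
      rw [mem_sites]
      by_cases h0 : (j : ℕ) = 0
      · exact Or.inl h0
      · right
        have hlt : (j : ℕ) - 1 < n + 1 := by have := j.2; omega
        refine ⟨τ.symm ⟨j - 1, hlt⟩, ?_, by simp; omega⟩
        rw [mem_tops]
        intro m hm
        by_contra hc
        set i := τ.symm ⟨j - 1, hlt⟩ with hi
        have hti : (τ i : ℕ) = j - 1 := by simp [hi]
        have hne : τ m ≠ τ i := fun e => by
          have := τ.injective e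
          rw [this] at hm
          omega
        have hlt2 : τ i < τ m := lt_of_le_of_ne (not_lt.1 hc) hne.symm
        rw [Fin.lt_def] at hlt2
        refine h i.castSucc m.castSucc (Fin.last _) (by simpa using hm.symm)
          (Fin.castSucc_lt_last m) ⟨?_, ?_⟩
        · rw [app_castSucc, app_last, succAbove_val]
          split_ifs <;> omega
        · rw [app_castSucc, app_last, Fin.lt_def, succAbove_val]
          split_ifs <;> omega
    refine ⟨?_, hs⟩
    rintro i m k him hmk ⟨h1, h2⟩
    rw [Fin.lt_def] at h2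
    by_cases hj : (j : ℕ) = τ k
    · refine h i.castSucc m.castSucc (Fin.last _) (by simpa using him)
          (Fin.castSucc_lt_last m) ⟨?_, ?_⟩
      · rw [app_castSucc, app_last, succAbove_val]
        split_ifs <;> omega
      · rw [app_castSucc, app_last, Fin.lt_def, succAbove_val]
        split_ifs <;> omega
    · refine h i.castSucc m.castSucc k.castSucc (by simpa using him) (by simpa using hmk)
        ⟨?_, ?_⟩
      · rw [app_castSucc, app_castSucc, succAbove_val, succAbove_val]
        split_ifs <;> omega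
      · rw [app_castSucc, app_castSucc]
        exact (Fin.strictMono_succAbove j).lt_iff_lt.2 (Fin.lt_def.2 h2)
  · rintro ⟨h, hs⟩ i m k him hmk ⟨h1, h2⟩
    have hml : m ≠ Fin.last _ := fun e => by
      rw [e] at hmk; exact absurd hmk (not_lt.2 (Fin.le_last k))
    have hil : i ≠ Fin.last _ := fun e => by
      rw [e] at him; have := m.2; simp at him; omega
    obtain ⟨m', rfl⟩ := Fin.exists_castSucc_eq.2 hml
    obtain ⟨i', rfl⟩ := Fin.exists_castSucc_eq.2 hil
    have him' : (i' : ℕ) + 1 = m' := by simpa using him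
    rcases Fin.eq_castSucc_or_eq_last k with ⟨k', rfl⟩ | rfl
    · rw [app_castSucc, app_castSucc] at h1 h2
      have h3 := (Fin.strictMono_succAbove j).lt_iff_lt.1 h2
      rw [succAbove_val, succAbove_val] at h1
      have hne : (τ i' : ℕ) ≠ τ k' := fun e => by
        have := τ.injective (Fin.ext e)
        rw [Fin.lt_def] at hmk
        simp at hmk
        rw [this] at him'
        omega
      refine h i' m' k' him' (by simpa using hmk) ⟨?_, h3⟩
      split_ifs at h1 <;> omega
    · rw [app_castSucc, app_last, succAbove_val] at h1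
      rw [app_castSucc, app_last, Fin.lt_def, succAbove_val] at h2
      have hti : (τ i' : ℕ) + 1 = j := by split_ifs at h1 <;> omega
      rw [mem_sites] at hs
      rcases hs with hs | ⟨i'', hi'', hs⟩
      · omega
      · have : i'' = i' := τ.injective (Fin.ext (by omega))
        rw [this, mem_tops] at hi''
        have := hi'' m' him'.symm
        rw [Fin.lt_def] at this
        split_ifs at h2 <;> omega

theorem lt_succAbove_iff {n : ℕ} (j : Fin (n + 1)) (i : Fin n) :
    j < j.succAbove i ↔ (j : ℕ) ≤ i := by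
  rw [Fin.lt_def, succAbove_val]; split_ifs <;> omega

theorem succAbove_lt_iff {n : ℕ} (j : Fin (n + 1)) (i : Fin n) :
    j.succAbove i < j ↔ (i : ℕ) < j := by
  rw [Fin.lt_def, succAbove_val]; split_ifs <;> omega

theorem lrmax_app {n : ℕ} (j : Fin (n + 2)) (τ : Equiv.Perm (Fin (n + 1))) :
    lrmax (app j τ) = lrmax τ + if (j : ℕ) = n + 1 then 1 else 0 := by
  unfold lrmax
  have h1 : ({i | ∀ m, m < i → app j τ m < app j τ i} : Finset (Fin (n + 2)))
      = (({i | ∀ m, m < i → τ m < τ i} : Finset (Fin (n + 1))).map Fin.castSuccEmb)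
        ∪ (if (j : ℕ) = n + 1 then {Fin.last (n + 1)} else ∅) := by
    ext i
    rw [mem_union, mem_filter, mem_map]
    rcases Fin.eq_castSucc_or_eq_last i with ⟨i', rfl⟩ | rfl
    · have e : i'.castSucc ∉ (if (j : ℕ) = n + 1 then ({Fin.last (n + 1)} : Finset (Fin (n + 2)))
          else ∅) := by
        split_ifs <;> simp [(Fin.castSucc_lt_last i').ne]
      simp only [e, or_false, mem_univ, true_and]
      constructor
      · intro h
        refine ⟨i', ?_, rfl⟩
        rw [mem_filter]
        refine ⟨mem_univ _, fun m hm => ?_⟩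
        have := h m.castSucc (by simpa using hm)
        rw [app_castSucc, app_castSucc] at this
        exact (Fin.strictMono_succAbove j).lt_iff_lt.1 this
      · rintro ⟨a, ha, hai⟩
        have : a = i' := Fin.castSuccEmb.injective hai
        subst this
        rw [mem_filter] at ha
        intro m hm
        have hml : m ≠ Fin.last _ := fun e => by
          rw [e] at hm; exact absurd hm (not_lt.2 (Fin.le_last _))
        obtain ⟨m', rfl⟩ := Fin.exists_castSucc_eq.2 hml
        rw [app_castSucc, app_castSucc]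
        exact (Fin.strictMono_succAbove j).lt_iff_lt.2 (ha.2 m' (by simpa using hm))
    · have e : ¬ ∃ a ∈ ({i | ∀ m, m < i → τ m < τ i} : Finset (Fin (n + 1))),
          Fin.castSuccEmb a = Fin.last (n + 1) := by
        rintro ⟨a, _, ha⟩
        exact (Fin.castSucc_lt_last a).ne ha
      simp only [e, false_or, mem_univ, true_and]
      constructor
      · intro h
        have hj : (j : ℕ) = n + 1 := by
          by_contra hj
          have := h (τ.symm (Fin.last n)).castSucc (Fin.castSucc_lt_last _)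
          rw [app_castSucc, app_last, succAbove_lt_iff] at this
          simp at this
          have := j.2
          omega
        rw [if_pos hj]; simp
      · intro h
        have hj : (j : ℕ) = n + 1 := by
          by_contra hj
          rw [if_neg hj] at h; simp at h
        intro m hm
        obtain ⟨m', rfl⟩ := Fin.exists_castSucc_eq.2 hm.ne
        rw [app_castSucc, app_last, succAbove_lt_iff]
        have := (τ m').2
        omega
  rw [h1, card_union_of_disjoint, card_map]
  · split_ifs <;> simp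
  · split_ifs
    · rw [disjoint_singleton_right, mem_map]
      rintro ⟨a, _, ha⟩
      exact (Fin.castSucc_lt_last a).ne ha
    · simp

theorem top_site {n : ℕ} (τ : Equiv.Perm (Fin (n + 1))) : n + 1 ∈ sites τ := by
  rw [mem_sites]
  refine Or.inr ⟨τ.symm (Fin.last n), ?_, by simp⟩
  rw [mem_tops]
  intro m hm
  rw [Equiv.apply_symm_apply]
  refine lt_of_le_of_ne (Fin.le_last _) fun e => ?_
  have : m = τ.symm (Fin.last n) := by rw [← e]; simp
  rw [← this] at hm
  omega

theorem sites_le {n : ℕ} (τ : Equiv.Perm (Fin (n + 1))) {a : ℕ} (ha : a ∈ sites τ) :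
    a ≤ n + 1 := by
  rw [mem_sites] at ha
  rcases ha with h | ⟨i, _, h⟩
  · omega
  · have := (τ i).2; omega

theorem rk_eq_zero_iff {n : ℕ} (j : Fin (n + 2)) (τ : Equiv.Perm (Fin (n + 1))) :
    rk τ j = 0 ↔ (j : ℕ) = n + 1 := by
  constructor
  · intro h
    by_contra hj
    have := rk_strict τ (a := j) (b := n + 1) (by have := j.2; omega) (top_site τ)
    omega
  · intro h
    rw [rk, card_eq_zero, filter_eq_empty_iff]
    intro t ht
    have := sites_le τ ht
    omega

/-- positions of right-to-left maxima -/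
def rlm {n : ℕ} (τ : Equiv.Perm (Fin n)) : Finset (Fin n) := {i | ∀ m, i < m → τ m < τ i}

theorem mem_rlm {n : ℕ} {τ : Equiv.Perm (Fin n)} {i : Fin n} :
    i ∈ rlm τ ↔ ∀ m, i < m → τ m < τ i := by simp [rlm]

/-- the set of ranks of the right-to-left maxima -/
def RR {n : ℕ} (τ : Equiv.Perm (Fin n)) : Finset ℕ := (rlm τ).image fun i => rk τ ((τ i : ℕ) + 1)

theorem rlm_tops {n : ℕ} {τ : Equiv.Perm (Fin n)} {i : Fin n} (h : i ∈ rlm τ) : i ∈ tops τ := by
  rw [mem_tops]; rw [mem_rlm] at h
  intro m hm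
  exact h m (Fin.lt_def.2 (by omega))

theorem card_RR {n : ℕ} (τ : Equiv.Perm (Fin n)) : #(RR τ) = rlmax τ := by
  have e : rlmax τ = #(rlm τ) := rfl
  rw [e, RR, card_image_of_injOn]
  intro a ha b hb h
  simp only at h
  by_contra hne
  rcases lt_or_gt_of_ne (fun e => hne (τ.injective e) : τ a ≠ τ b) with h1 | h1
  · have := rk_strict τ (a := (τ a : ℕ) + 1) (b := (τ b : ℕ) + 1)
      (by rw [Fin.lt_def] at h1; omega) (mem_sites.2 (Or.inr ⟨b, rlm_tops hb, rfl⟩))
    omega
  · have := rk_strict τ (a := (τ b : ℕ) + 1) (b := (τ a : ℕ) + 1)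
      (by rw [Fin.lt_def] at h1; omega) (mem_sites.2 (Or.inr ⟨a, rlm_tops ha, rfl⟩))
    omega

theorem mem_rlm_app_castSucc {n : ℕ} (j : Fin (n + 2)) (τ : Equiv.Perm (Fin (n + 1)))
    (i : Fin (n + 1)) : i.castSucc ∈ rlm (app j τ) ↔ i ∈ rlm τ ∧ (j : ℕ) ≤ τ i := by
  rw [mem_rlm, mem_rlm]
  constructor
  · intro h
    constructor
    · intro m hm
      have := h m.castSucc (by simpa using hm)
      rw [app_castSucc, app_castSucc] at this
      exact (Fin.strictMono_succAbove j).lt_iff_lt.1 this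
    · have := h (Fin.last (n + 1)) (Fin.castSucc_lt_last i)
      rwa [app_last, app_castSucc, lt_succAbove_iff] at this
  · rintro ⟨h1, h2⟩ m hm
    rcases Fin.eq_castSucc_or_eq_last m with ⟨m', rfl⟩ | rfl
    · rw [app_castSucc, app_castSucc]
      exact (Fin.strictMono_succAbove j).lt_iff_lt.2 (h1 m' (by simpa using hm))
    · rwa [app_last, app_castSucc, lt_succAbove_iff]

theorem last_mem_rlm {n : ℕ} (τ : Equiv.Perm (Fin (n + 1))) : Fin.last n ∈ rlm τ := by
  rw [mem_rlm]
  intro m hm
  exact absurd hm (not_lt.2 (Fin.le_last m))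

theorem RR_app {n : ℕ} (j : Fin (n + 2)) (τ : Equiv.Perm (Fin (n + 1))) :
    RR (app j τ) = insert (rk τ j) ((RR τ).filter (· < rk τ j)) := by
  ext a
  rw [mem_insert, mem_filter, RR, RR, mem_image, mem_image]
  constructor
  · rintro ⟨i, hi, rfl⟩
    rcases Fin.eq_castSucc_or_eq_last i with ⟨i', rfl⟩ | rfl
    · rw [mem_rlm_app_castSucc] at hi
      rw [app_castSucc, succAbove_val, if_neg (by omega), rk_app j τ (by omega)]
      exact Or.inr ⟨⟨i', hi.1, rfl⟩, rk_strict τ (by omega)
        (mem_sites.2 (Or.inr ⟨i', rlm_tops hi.1, rfl⟩))⟩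
    · rw [app_last, rk_app j τ le_rfl]; exact Or.inl rfl
  · rintro (rfl | ⟨⟨i, hi, rfl⟩, h⟩)
    · exact ⟨Fin.last _, last_mem_rlm _, by rw [app_last, rk_app j τ le_rfl]⟩
    · have hji : (j : ℕ) ≤ τ i := by
        by_contra hc
        exact absurd (rk_anti τ (show (τ i : ℕ) + 1 ≤ j by omega)) (by omega)
      refine ⟨i.castSucc, (mem_rlm_app_castSucc j τ i).2 ⟨hi, hji⟩, ?_⟩
      rw [app_castSucc, succAbove_val, if_neg (by omega), rk_app j τ (by omega)]

/-- rank of the last value -/
def cc {n : ℕ} (τ : Equiv.Perm (Fin (n + 1))) : ℕ := rk τ ((τ (Fin.last n) : ℕ) + 1)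

/-- number of tops -/
def KK {n : ℕ} (τ : Equiv.Perm (Fin (n + 1))) : ℕ := #(sites τ)

theorem cc_app {n : ℕ} (j : Fin (n + 2)) (τ : Equiv.Perm (Fin (n + 1))) :
    cc (app j τ) = rk τ j := by
  rw [cc, app_last, rk_app j τ le_rfl]

theorem KK_app {n : ℕ} (j : Fin (n + 2)) (τ : Equiv.Perm (Fin (n + 1))) :
    KK (app j τ) = KK τ + if cc τ < rk τ j then 1 else 0 := by
  rw [KK, KK, card_sites, card_sites, card_tops_app, cc]
  simp only [lt_rk_iff]
  split_ifs <;> omega

theorem cc_mem_RR {n : ℕ} (τ : Equiv.Perm (Fin (n + 1))) : cc τ ∈ RR τ := by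
  rw [RR, mem_image]; exact ⟨_, last_mem_rlm τ, rfl⟩

theorem le_cc {n : ℕ} (τ : Equiv.Perm (Fin (n + 1))) {a : ℕ} (ha : a ∈ RR τ) : a ≤ cc τ := by
  rw [RR, mem_image] at ha
  obtain ⟨i, hi, rfl⟩ := ha
  rw [mem_rlm] at hi
  refine rk_anti τ ?_
  rcases eq_or_ne i (Fin.last n) with rfl | h
  · exact le_rfl
  · have := hi _ (lt_of_le_of_ne (Fin.le_last i) h)
    rw [Fin.lt_def] at this
    omega

theorem cc_add_two_le {n : ℕ} (τ : Equiv.Perm (Fin (n + 1))) : cc τ + 2 ≤ KK τ := by
  have h0 : cc τ < rk τ 0 := rk_strict τ (by omega)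
    (mem_sites.2 (Or.inr ⟨_, last_mem_tops τ, rfl⟩))
  have h1 : rk τ 0 < KK τ := by
    refine card_lt_card ?_
    rw [Finset.ssubset_iff_of_subset (filter_subset _ _)]
    exact ⟨0, mem_sites.2 (Or.inl rfl), by simp⟩
  omega

/-- the second parameter -/
def dd {n : ℕ} (τ : Equiv.Perm (Fin (n + 1))) : ℕ := KK τ - 2 - cc τ

theorem KK_eq {n : ℕ} (τ : Equiv.Perm (Fin (n + 1))) : KK τ = (cc τ + 1) + (dd τ + 1) := by
  have := cc_add_two_le τ
  unfold dd; omega

theorem sum_rank {M : Type*} [AddCommMonoid M] (s : Finset ℕ) (g : ℕ → M) :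
    ∑ j ∈ s, g #{t ∈ s | j < t} = ∑ c ∈ range #s, g c := by
  refine Finset.induction_on_min s (by simp) ?_
  · intro a s ha ih
    have has : a ∉ s := fun h => lt_irrefl _ (ha a h)
    rw [sum_insert has, card_insert_of_notMem has, sum_range_succ, ← ih, add_comm]
    congr 1
    · refine sum_congr rfl fun j hj => ?_
      rw [filter_insert, if_neg (not_lt.2 (ha j hj).le)]
    · rw [filter_insert, if_neg (lt_irrefl a)]
      congr 2
      rw [filter_true_of_mem]
      intro t ht
      exact ha t ht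

theorem sum_sites {n : ℕ} (τ : Equiv.Perm (Fin (n + 1))) {M : Type*} [AddCommMonoid M]
    (g : ℕ → M) [∀ j : Fin (n + 2), Decidable ((j : ℕ) ∈ sites τ)] :
    ∑ j : Fin (n + 2), (if (j : ℕ) ∈ sites τ then g (rk τ j) else 0)
      = ∑ c ∈ range (KK τ), g c := by
  have h1 : ∑ j : Fin (n + 2), (if (j : ℕ) ∈ sites τ then g (rk τ j) else 0)
      = ∑ j ∈ range (n + 2), (if j ∈ sites τ then g (rk τ j) else 0) := by
    rw [Finset.sum_range]
    refine Finset.sum_congr rfl fun j _ => ?_
    congr
  rw [h1, ← sum_filter, KK, ← sum_rank]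
  have h2 : (range (n + 2)).filter (· ∈ sites τ) = sites τ := by
    ext a
    rw [mem_filter, mem_range]
    exact ⟨fun h => h.2, fun h => ⟨by have := sites_le τ h; omega, h⟩⟩
  rw [h2]; rfl

end Pool.Agent.H176.Fish
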