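import Mathlib

/-!
Definitions for `MP_0ade3f_co`: the permutations avoiding the bivincular pattern, and the two
statistics.  A permutation `π` of `Fin n` is read as the word `π 0, π 1, ..., π (n - 1)`; positions
and values are shifted by one with respect to the problem file, which changes none of the notions.
-/

namespace Pool.Agent.H176.Fish

open Finset

/-- Membership in the set `A_n` of the problem: there are no positions `i, j, k` with
`i + 1 = j < k` and `π i + 1 = π k < π j`. -/
def Av {n : ℕ} (π : Equiv.Perm (Fin n)) : Prop :=
  ∀ i j k : Fin n, (i : ℕ) + 1 = j → j < k → ¬ ((π i : ℕ) + 1 = π k ∧ π k < π j)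

/-- The number of left-to-right maxima: positions `i` such that `π m < π i` for all `m < i`. -/
def lrmax {n : ℕ} (π : Equiv.Perm (Fin n)) : ℕ :=
  #{i : Fin n | ∀ m, m < i → π m < π i}

/-- The number of right-to-left maxima: positions `i` such that `π m < π i` for all `m > i`. -/
def rlmax {n : ℕ} (π : Equiv.Perm (Fin n)) : ℕ :=
  #{i : Fin n | ∀ m, i < m → π m < π i}

end Pool.Agent.H176.Fish
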