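import Pool.Agent.H176.Fish.Main

namespace Pool.Agent.H176.Fish

open Finset

open Classical in
/-- the bivariate generating polynomial of the avoiders of size `n + 1`. -/
noncomputable def WW {R : Type*} [CommRing R] (n : ℕ) (p v : R) : R :=
  ∑ τ : Equiv.Perm (Fin (n + 1)), if Av τ then p ^ lrmax τ * v ^ rlmax τ else 0

theorem aa_WW {R : Type*} [CommRing R] (n : ℕ) (p v : R) :
    aa n p (fun _ _ S => v ^ #S) = WW n p v := by
  unfold aa WW
  refine sum_congr rfl fun τ _ => ?_
  simp only [card_RR, smul_eq_mul]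

theorem nil_symm {R : Type*} [CommRing R] {N : ℕ} {x : R} (hx : x ^ (N + 1) = 0) (p v : R) :
    ∑ n ∈ range N, x ^ (n + 1) * (WW n p v - WW n v p) = 0 := by
  obtain ⟨ri, hri⟩ : ∃ ri : R, ri * (1 - x) = 1 := by
    obtain ⟨u, hu⟩ := (show IsNilpotent x from ⟨N + 1, hx⟩).isUnit_one_sub
    exact ⟨↑u⁻¹, by rw [← hu]; simp⟩
  have h1 := main hx p v ri hri
  have h2 := main hx v p ri hri
  rw [dbl_symm] at h2
  have h3 : ZZ N x p (fun _ _ S => v ^ #S) = ZZ N x v (fun _ _ S => p ^ #S) := by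
    rw [h1, h2]; ring
  unfold ZZ at h3
  simp only [aa_WW, smul_eq_mul] at h3
  simp only [mul_sub, sum_sub_distrib]
  rw [h3, sub_self]

theorem map_WW {R R' : Type*} [CommRing R] [CommRing R'] (f : R →+* R') (n : ℕ) (p v : R) :
    f (WW n p v) = WW n (f p) (f v) := by
  unfold WW
  rw [map_sum]
  refine sum_congr rfl fun τ _ => ?_
  split_ifs
  · rw [map_mul, map_pow, map_pow]
  · rw [map_zero]

theorem WW_symm {B : Type*} [CommRing B] (m : ℕ) (p v : B) : WW m p v = WW m v p := by
  set I : Ideal (PowerSeries B) := Ideal.span {(PowerSeries.X : PowerSeries B) ^ (m + 1 + 1)}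
  set q : PowerSeries B →+* (PowerSeries B ⧸ I) := Ideal.Quotient.mk I with hq
  have hx : (q PowerSeries.X) ^ (m + 1 + 1) = 0 := by
    rw [← map_pow, hq, Ideal.Quotient.eq_zero_iff_mem]
    exact Ideal.subset_span rfl
  have h := nil_symm hx (q (PowerSeries.C p)) (q (PowerSeries.C v))
  have h2 : q (∑ n ∈ range (m + 1), PowerSeries.X ^ (n + 1) *
      PowerSeries.C (WW n p v - WW n v p)) = 0 := by
    rw [← h, map_sum]
    refine sum_congr rfl fun n _ => ?_
    rw [map_mul, map_pow, map_sub, map_sub, map_WW, map_WW, map_WW, map_WW]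
  rw [hq, Ideal.Quotient.eq_zero_iff_mem, Ideal.mem_span_singleton,
    PowerSeries.X_pow_dvd_iff] at h2
  have h3 := h2 (m + 1) (by omega)
  rw [map_sum, sum_eq_single m] at h3
  · rw [PowerSeries.coeff_mul_C] at h3
    simpa [sub_eq_zero] using h3
  · intro b _ hb
    rw [PowerSeries.coeff_mul_C, PowerSeries.coeff_X_pow, if_neg (by omega), zero_mul]
  · intro hm; exact absurd (mem_range.2 (Nat.lt_succ_self m)) hm

open Classical in
theorem count_symm (m a b : ℕ) :
    #{τ : Equiv.Perm (Fin (m + 1)) | Av τ ∧ lrmax τ = a ∧ rlmax τ = b}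
      = #{τ : Equiv.Perm (Fin (m + 1)) | Av τ ∧ lrmax τ = b ∧ rlmax τ = a} := by
  have h := WW_symm (B := Polynomial (Polynomial ℤ)) m (Polynomial.C Polynomial.X) Polynomial.X
  have h1 := congrArg (fun f => (f.coeff b).coeff a) h
  simp only [WW] at h1
  rw [Polynomial.finsetSum_coeff, Polynomial.finsetSum_coeff, Polynomial.finsetSum_coeff,
    Polynomial.finsetSum_coeff] at h1
  have e1 : ∀ τ : Equiv.Perm (Fin (m + 1)),
      ((if Av τ then (Polynomial.C Polynomial.X : Polynomial (Polynomial ℤ)) ^ lrmax τ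
        * Polynomial.X ^ rlmax τ else 0).coeff b).coeff a
      = if Av τ ∧ lrmax τ = a ∧ rlmax τ = b then (1 : ℤ) else 0 := by
    intro τ
    by_cases hA : Av τ
    · rw [if_pos hA, ← Polynomial.C_pow, Polynomial.coeff_C_mul, Polynomial.coeff_X_pow]
      by_cases hb : b = rlmax τ
      · by_cases ha : a = lrmax τ
        · rw [if_pos hb, mul_one, Polynomial.coeff_X_pow, if_pos ha, if_pos ⟨hA, ha.symm, hb.symm⟩]
        · rw [if_pos hb, mul_one, Polynomial.coeff_X_pow, if_neg ha,
            if_neg (fun h => ha h.2.1.symm)]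
      · rw [if_neg hb, mul_zero, Polynomial.coeff_zero, if_neg (fun h => hb h.2.2.symm)]
    · rw [if_neg hA, if_neg (fun h => hA h.1)]; simp
  have e2 : ∀ τ : Equiv.Perm (Fin (m + 1)),
      ((if Av τ then (Polynomial.X : Polynomial (Polynomial ℤ)) ^ lrmax τ
        * (Polynomial.C Polynomial.X) ^ rlmax τ else 0).coeff b).coeff a
      = if Av τ ∧ lrmax τ = b ∧ rlmax τ = a then (1 : ℤ) else 0 := by
    intro τ
    by_cases hA : Av τ
    · rw [if_pos hA, mul_comm, ← Polynomial.C_pow, Polynomial.coeff_C_mul,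
        Polynomial.coeff_X_pow]
      by_cases hb : b = lrmax τ
      · by_cases ha : a = rlmax τ
        · rw [if_pos hb, mul_one, Polynomial.coeff_X_pow, if_pos ha, if_pos ⟨hA, hb.symm, ha.symm⟩]
        · rw [if_pos hb, mul_one, Polynomial.coeff_X_pow, if_neg ha,
            if_neg (fun h => ha h.2.2.symm)]
      · rw [if_neg hb, mul_zero, Polynomial.coeff_zero, if_neg (fun h => hb h.2.1.symm)]
    · rw [if_neg hA, if_neg (fun h => hA h.1)]; simp
  rw [sum_congr rfl fun τ _ => e1 τ, sum_congr rfl fun τ _ => e2 τ] at h1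
  rw [← sum_filter, ← sum_filter, sum_const, sum_const] at h1
  simpa using h1

end Pool.Agent.H176.Fish
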