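import Pool.Agent.H176.Fish.Tele

namespace Pool.Agent.H176.Fish

open Finset PowerSeries

variable {R : Type*} [CommRing R]

theorem sum_rank_lt {M : Type*} [AddCommMonoid M] (s : Finset ℕ) (g : ℕ → M) :
    ∑ j ∈ s, g #{t ∈ s | t < j} = ∑ c ∈ range #s, g c := by
  refine Finset.induction_on_max s (by simp) ?_
  · intro a s ha ih
    have has : a ∉ s := fun h => lt_irrefl _ (ha a h)
    rw [sum_insert has, card_insert_of_notMem has, sum_range_succ, ← ih, add_comm]
    congr 1
    · refine sum_congr rfl fun j hj => ?_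
      rw [filter_insert, if_neg (not_lt.2 (ha j hj).le)]
    · rw [filter_insert, if_neg (lt_irrefl a)]
      congr 2
      rw [filter_true_of_mem]
      intro t ht
      exact ha t ht

theorem pw (T : Finset ℕ) (v : R) :
    1 + (v - 1) * ∑ s ∈ T, v ^ #{t ∈ T | t < s} = v ^ #T := by
  rw [sum_rank_lt T (fun i => v ^ i), mul_geom_sum]; ring

/-- potential of a state. -/
noncomputable def PP (N : ℕ) (x v : R) (c d : ℕ) (S : Finset ℕ) : R :=
  Th N x v c d + (v - 1) * ∑ s ∈ S.filter (· < c),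
    v ^ #(S.filter (· < s)) * Th N x v (c - 1 - s) d

theorem PP_child (N : ℕ) (x v : R) (c d : ℕ) (S : Finset ℕ) :
    PP N x v c d (insert c (S.filter (· < c)))
      = Th N x v c d + (v - 1) * ∑ s ∈ S.filter (· < c),
        v ^ #(S.filter (· < s)) * Th N x v (c - 1 - s) d := by
  unfold PP
  have e : (insert c (S.filter (· < c))).filter (· < c) = S.filter (· < c) := by
    ext a; simp only [mem_filter, mem_insert]
    constructor
    · rintro ⟨h | h, h2⟩
      · omega
      · exact h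
    · intro h; exact ⟨Or.inr h, h.2⟩
  rw [e]
  congr 2
  refine sum_congr rfl fun s hs => ?_
  rw [mem_filter] at hs
  have e2 : (insert c (S.filter (· < c))).filter (· < s) = S.filter (· < s) := by
    ext a; simp only [mem_filter, mem_insert]
    constructor
    · rintro ⟨h | h, h2⟩
      · omega
      · exact ⟨h.1, h2⟩
    · intro h; exact ⟨Or.inr ⟨h.1, by omega⟩, h.2⟩
  rw [e2]

theorem grp1 (N : ℕ) (x v : R) (c d : ℕ) (S T : Finset ℕ) (hT : T = S.filter (· < c))
    (hTs : ∀ s ∈ T, S.filter (· < s) = T.filter (· < s)) :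
    ∑ i ∈ range (c + 1), ((if i = 0 then (1 : R) else 1) •
      PP N x v i (c + d - i) (insert i (S.filter (· < i))))
      = ∑ i ∈ range (c + 1), Th N x v i (c + d - i)
        + (v - 1) * ∑ s ∈ T, v ^ #(T.filter (· < s)) *
          ∑ i ∈ range (c - 1 - s + 1), Th N x v i (c - 1 - s + d - i) := by
  have e1 : ∀ i ∈ range (c + 1), ((if i = 0 then (1 : R) else 1) •
    PP N x v i (c + d - i) (insert i (S.filter (· < i))))
    = Th N x v i (c + d - i) + (v - 1) * ∑ s ∈ S.filter (· < i),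
      v ^ #(S.filter (· < s)) * Th N x v (i - 1 - s) (c + d - i) := by
    intro i _
    rw [ite_self, one_smul, PP_child]
  rw [sum_congr rfl e1, sum_add_distrib, ← mul_sum]
  congr 2
  have e2 : ∑ i ∈ range (c + 1), ∑ s ∈ S.filter (· < i),
      v ^ #(S.filter (· < s)) * Th N x v (i - 1 - s) (c + d - i)
      = ∑ s ∈ T, ∑ i ∈ (range (c + 1)).filter (s < ·),
      v ^ #(S.filter (· < s)) * Th N x v (i - 1 - s) (c + d - i) := by
    refine sum_comm' fun i s => ?_
    simp only [mem_range, mem_filter, hT]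
    constructor
    · rintro ⟨h1, h2, h3⟩; exact ⟨⟨h1, h3⟩, h2, by omega⟩
    · rintro ⟨⟨h1, h3⟩, h2, _⟩; exact ⟨h1, h2, h3⟩
  rw [e2]
  refine sum_congr rfl fun s hs => ?_
  rw [hTs s hs, ← mul_sum]
  have hsc : s < c := by rw [hT, mem_filter] at hs; exact hs.2
  have e3 : (range (c + 1)).filter (s < ·)
      = (range (c - 1 - s + 1)).image (fun i => s + 1 + i) := by
    ext a
    simp only [mem_filter, mem_range, mem_image]
    constructor
    · rintro ⟨h1, h2⟩; exact ⟨a - s - 1, by omega, by omega⟩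
    · rintro ⟨b, hb, rfl⟩; omega
  rw [e3, sum_image (by intro a _ b _ h; simp only at h; omega)]
  have e4 : ∀ i ∈ range (c - 1 - s + 1), Th N x v (s + 1 + i - 1 - s) (c + d - (s + 1 + i))
      = Th N x v i (c - 1 - s + d - i) := by
    intro i hi
    rw [mem_range] at hi
    rw [show s + 1 + i - 1 - s = i by omega,
      show c + d - (s + 1 + i) = c - 1 - s + d - i by omega]
  rw [sum_congr rfl e4]

theorem grp2 (N : ℕ) (x v : R) (c d : ℕ) (S T : Finset ℕ) (hT : T = S.filter (· < c))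
    (hST : S = insert c T) (hcT : c ∉ T) (hS : ∀ s ∈ S, s ≤ c)
    (hTs : ∀ s ∈ T, S.filter (· < s) = T.filter (· < s)) :
    ∑ i ∈ range (d + 1), PP N x v (c + 1 + i) (d - i)
        (insert (c + 1 + i) (S.filter (· < c + 1 + i)))
      = ∑ i ∈ range (d + 1), Th N x v (c + 1 + i) (d - i)
        + (v - 1) * (∑ s ∈ T, v ^ #(T.filter (· < s)) *
          ∑ i ∈ range (d + 1), Th N x v (c - 1 - s + 1 + i) (d - i)
          + v ^ #T * ∑ i ∈ range (d + 1), Th N x v i (d - i)) := by
  have e1 : ∀ i ∈ range (d + 1), PP N x v (c + 1 + i) (d - i)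
      (insert (c + 1 + i) (S.filter (· < c + 1 + i)))
    = Th N x v (c + 1 + i) (d - i) + (v - 1) * ∑ s ∈ S,
      v ^ #(S.filter (· < s)) * Th N x v (c + 1 + i - 1 - s) (d - i) := by
    intro i _
    rw [PP_child]
    have : S.filter (· < c + 1 + i) = S := by
      rw [filter_true_of_mem]; intro s hs; have := hS s hs; omega
    rw [this]
  rw [sum_congr rfl e1, sum_add_distrib, ← mul_sum]
  congr 2
  rw [sum_comm]
  have e4 : ∀ F : ℕ → R, ∑ s ∈ S, F s = ∑ s ∈ T, F s + F c := by
    intro F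
    conv_lhs => rw [hST]
    rw [sum_insert hcT, add_comm]
  rw [e4]
  have e5 : ∑ i ∈ range (d + 1), v ^ #(S.filter (· < c)) * Th N x v (c + 1 + i - 1 - c) (d - i)
      = v ^ #T * ∑ i ∈ range (d + 1), Th N x v i (d - i) := by
    rw [← hT, mul_sum]
    refine sum_congr rfl fun i _ => ?_
    rw [show c + 1 + i - 1 - c = i by omega]
  rw [e5]
  congr 1
  refine sum_congr rfl fun s hs => ?_
  rw [hTs s hs, ← mul_sum]
  have hsc : s < c := by rw [hT, mem_filter] at hs; exact hs.2
  have e6 : ∀ i ∈ range (d + 1), Th N x v (c + 1 + i - 1 - s) (d - i)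
      = Th N x v (c - 1 - s + 1 + i) (d - i) := by
    intro i _
    rw [show c + 1 + i - 1 - s = c - 1 - s + 1 + i by omega]
  rw [sum_congr rfl e6]

theorem PP_eq {N : ℕ} {x : R} (hx : x ^ N = 0) (hN : 0 < N) (v : R) (c d : ℕ) (S : Finset ℕ)
    (hc : c ∈ S) (hS : ∀ s ∈ S, s ≤ c) :
    (1 - x) * v ^ #S = PP N x v c d S - x * ch (1 : R) (PP N x v) c d S := by
  obtain ⟨T, hT⟩ : ∃ T, T = S.filter (· < c) := ⟨_, rfl⟩
  have hST : S = insert c T := by
    ext a; rw [mem_insert, hT, mem_filter]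
    constructor
    · intro h
      rcases (hS a h).lt_or_eq with h' | h'
      · exact Or.inr ⟨h, h'⟩
      · exact Or.inl h'
    · rintro (h | h)
      · rw [h]; exact hc
      · exact h.1
  have hcT : c ∉ T := by rw [hT, mem_filter]; exact fun h => lt_irrefl _ h.2
  have hTs : ∀ s ∈ T, S.filter (· < s) = T.filter (· < s) := by
    intro s hs
    rw [hT, mem_filter] at hs
    ext a; rw [mem_filter, mem_filter, hT, mem_filter]
    exact ⟨fun h => ⟨⟨h.1, by omega⟩, h.2⟩, fun h => ⟨h.1.1, h.2⟩⟩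
  have key := pw T v
  have hcard : #S = #T + 1 := by rw [hST, card_insert_of_notMem hcT]
  have t0 := Th_eq hx hN v c d
  have tG := G_eq hx hN v d
  have ts : ∑ s ∈ T, v ^ #(T.filter (· < s)) * (x * (∑ i ∈ range (c - 1 - s + 1),
        Th N x v i (c - 1 - s + d - i)
        + ∑ i ∈ range (d + 1), Th N x v (c - 1 - s + 1 + i) (d - i)))
      = ∑ s ∈ T, v ^ #(T.filter (· < s)) * Th N x v (c - 1 - s) d
        - ((1 - x) * (v - 1) * G N x v d + (1 - x)) * ∑ s ∈ T, v ^ #(T.filter (· < s)) := by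
    rw [mul_sum, ← sum_sub_distrib]
    refine sum_congr rfl fun s _ => ?_
    rw [← Th_eq hx hN v (c - 1 - s) d]; ring
  have ts' : ∑ s ∈ T, v ^ #(T.filter (· < s)) * (x * (∑ i ∈ range (c - 1 - s + 1),
        Th N x v i (c - 1 - s + d - i)
        + ∑ i ∈ range (d + 1), Th N x v (c - 1 - s + 1 + i) (d - i)))
      = x * (∑ s ∈ T, v ^ #(T.filter (· < s)) *
          ∑ i ∈ range (c - 1 - s + 1), Th N x v i (c - 1 - s + d - i))
        + x * (∑ s ∈ T, v ^ #(T.filter (· < s)) *
          ∑ i ∈ range (d + 1), Th N x v (c - 1 - s + 1 + i) (d - i)) := by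
    rw [mul_sum, mul_sum, ← sum_add_distrib]
    refine sum_congr rfl fun s _ => ?_
    ring
  have hPP : PP N x v c d S = Th N x v c d + (v - 1) * ∑ s ∈ T,
      v ^ #(T.filter (· < s)) * Th N x v (c - 1 - s) d := by
    unfold PP
    rw [← hT]
    congr 2
    exact sum_congr rfl fun s hs => by rw [hTs s hs]
  have e5 := ts'.symm.trans ts
  clear ts ts'
  unfold ch
  rw [grp1 N x v c d S T hT hTs, grp2 N x v c d S T hT hST hcT hS hTs, hcard, pow_succ, hPP]
  generalize (∑ s ∈ T, v ^ #(T.filter (· < s)) * Th N x v (c - 1 - s) d) = A1 at *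
  generalize (∑ s ∈ T, v ^ #(T.filter (· < s)) *
          ∑ i ∈ range (c - 1 - s + 1), Th N x v i (c - 1 - s + d - i)) = A2 at *
  generalize (∑ s ∈ T, v ^ #(T.filter (· < s)) *
          ∑ i ∈ range (d + 1), Th N x v (c - 1 - s + 1 + i) (d - i)) = A3 at *
  generalize (∑ s ∈ T, v ^ #(T.filter (· < s))) = A4 at *
  generalize (∑ i ∈ range (d + 1), Th N x v i (d - i)) = A5 at *
  generalize (∑ i ∈ range (d + 1), Th N x v (c + 1 + i) (d - i)) = A6 at *
  generalize (∑ i ∈ range (c + 1), Th N x v i (c + d - i)) = A7 at *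
  linear_combination -t0 + (v - 1) * e5 - (v - 1) * v ^ #T * tG
    - (1 - x) * ((v - 1) * G N x v d + 1) * key

end Pool.Agent.H176.Fish
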