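import Pool.Agent.H176.Fish.Final

namespace Pool.Agent.H176.Fish

open Finset PowerSeries

variable {R : Type*} [CommRing R]

/-- rescaling as a linear map -/
noncomputable def resL (r : R) : PowerSeries R →ₗ[R] PowerSeries R where
  toFun f := rescale r f
  map_add' f g := map_add _ f g
  map_smul' c f := by
    ext n
    simp [coeff_rescale]
    ring

/-- the generating function by number of descents. -/
noncomputable def hh (N : ℕ) (x p : R) : PowerSeries R :=
  ZZ N x p fun c d _ => (y : PowerSeries R) ^ (c + d + 1)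

theorem ch_pow (x : R) (c d : ℕ) (S : Finset ℕ) :
    C x * X * ch (1 : R) (fun c d _ => (y : PowerSeries R) ^ (d + 1) * yr (1 - x) ^ (c + 1)) c d S
      = X * (y ^ (d + 1) * yr (1 - x) ^ (c + 1)) + y ^ (c + d + 1) - yr (1 - x) ^ (c + d + 2) := by
  unfold ch
  have h1 : C x * X * ∑ i ∈ range (c + 1), ((if i = 0 then (1 : R) else 1) •
      ((y : PowerSeries R) ^ (c + d - i + 1) * yr (1 - x) ^ (i + 1)))
      = y ^ d * (y ^ (c + 1) - yr (1 - x) ^ (c + 1)) := by
    have h2 := geom (R := R) x c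
    rw [← sum_range_reflect] at h2
    have e : ∀ i ∈ range (c + 1), ((if i = 0 then (1 : R) else 1) •
      ((y : PowerSeries R) ^ (c + d - i + 1) * yr (1 - x) ^ (i + 1)))
        = y ^ d * (y ^ (c + 1 - 1 - i + 1) * yr (1 - x) ^ (c + 1 - (c + 1 - 1 - i))) := by
      intro i hi
      have hi' : i < c + 1 := mem_range.1 hi
      have e1 : c + d - i + 1 = d + (c + 1 - 1 - i + 1) := by omega
      have e2 : c + 1 - (c + 1 - 1 - i) = i + 1 := by omega
      rw [ite_self, one_smul, e1, e2, pow_add y d]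
      ring
    rw [sum_congr rfl e, ← mul_sum]
    linear_combination (y ^ d) * h2
  have h3 : C x * X * ∑ i ∈ range (d + 1),
      ((y : PowerSeries R) ^ (d - i + 1) * yr (1 - x) ^ (c + 1 + i + 1))
      = yr (1 - x) ^ (c + 1) * (y ^ (d + 1) - yr (1 - x) ^ (d + 1)) := by
    have h2 := geom (R := R) x d
    rw [← sum_range_reflect] at h2
    have e : ∀ i ∈ range (d + 1),
      ((y : PowerSeries R) ^ (d - i + 1) * yr (1 - x) ^ (c + 1 + i + 1))
        = yr (1 - x) ^ (c + 1) *
          (y ^ (d + 1 - 1 - i + 1) * yr (1 - x) ^ (d + 1 - (d + 1 - 1 - i))) := by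
      intro i hi
      have hi' : i < d + 1 := mem_range.1 hi
      have e1 : d - i + 1 = d + 1 - 1 - i + 1 := by omega
      have e2 : d + 1 - (d + 1 - 1 - i) = i + 1 := by omega
      rw [e1, e2, show c + 1 + i + 1 = (c + 1) + (i + 1) by ring, pow_add (yr (1 - x)) (c + 1)]
      ring
    rw [sum_congr rfl e, ← mul_sum]
    linear_combination (yr (1 - x) ^ (c + 1)) * h2
  rw [mul_add, h1, h3]
  linear_combination y ^ d * yr (1 - x) ^ (c + 1) * (y_eq (R := R))

theorem hh_eq {N : ℕ} {x : R} (hx : x ^ (N + 1) = 0) (p : R) :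
    (1 - C (1 - p * x) * X) * hh N x p - rescale (1 - x) (hh N x p) = - (C (p * x) * X * y) := by
  set F : ℕ → ℕ → Finset ℕ → PowerSeries R :=
    fun c d _ => y ^ (d + 1) * yr (1 - x) ^ (c + 1) with hF
  have h0 := ZZ_eq hx p F
  have hr : ZZ N x p (fun c d _ => (yr (1 - x) : PowerSeries R) ^ (c + d + 1))
      = rescale (1 - x) (hh N x p) := by
    have := ZZ_map (resL (1 - x)) N x p (fun c d _ => (y : PowerSeries R) ^ (c + d + 1))
    have e : resL (1 - x) (ZZ N x p fun c d _ => (y : PowerSeries R) ^ (c + d + 1))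
      = rescale (1 - x) (hh N x p) := rfl
    rw [← e, this]
    congr 1
    ext1 c; ext1 d; ext1 S
    have : resL (1 - x) ((y : PowerSeries R) ^ (c + d + 1))
      = rescale (1 - x) (y ^ (c + d + 1)) := rfl
    rw [this, map_pow]; rfl
  -- apply multiplication by `x * X` to `ch p F`
  have h1 : C x * X * ZZ N x p (ch p F)
      = X * ZZ N x p F + hh N x p - yr (1 - x) * rescale (1 - x) (hh N x p)
        + C (x * (p - 1)) * X * yr (1 - x) * hh N x p := by
    have m1 := ZZ_map (LinearMap.mulLeft R (C x * X : PowerSeries R)) N x p (ch p F)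
    have m2 := ZZ_map (LinearMap.mulLeft R (X : PowerSeries R)) N x p F
    have m3 := ZZ_map (LinearMap.mulLeft R (yr (1 - x) : PowerSeries R)) N x p
      (fun c d _ => (yr (1 - x) : PowerSeries R) ^ (c + d + 1))
    have m4 := ZZ_map (LinearMap.mulLeft R (C (x * (p - 1)) * X * yr (1 - x) : PowerSeries R))
      N x p (fun c d _ => (y : PowerSeries R) ^ (c + d + 1))
    simp only [LinearMap.mulLeft_apply] at m1 m2 m3 m4
    rw [hr] at m3
    have e1 : ZZ N x p (fun c d S => C x * X * ch p F c d S + yr (1 - x) * yr (1 - x) ^ (c + d + 1))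
        = ZZ N x p (fun c d S => (X * F c d S + y ^ (c + d + 1))
          + C (x * (p - 1)) * X * yr (1 - x) * y ^ (c + d + 1)) := by
      refine ZZ_congr N x p fun c d S _ _ => ?_
      have := ch_pow x c d S
      rw [ch_eq]
      simp only [hF] at this ⊢
      rw [mul_add, this, smul_eq_C_mul, map_mul]
      ring
    rw [ZZ_add, ZZ_add, ZZ_add, ← m1, ← m2, ← m3, ← m4] at e1
    have e2 : (ZZ N x p fun c d _ => (y : PowerSeries R) ^ (c + d + 1)) = hh N x p := rfl
    rw [e2] at e1
    linear_combination e1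
  have h2 : X * ZZ N x p F = C (x * p) * X * (y * yr (1 - x)) + C x * X * ZZ N x p (ch p F) := by
    rw [h0]
    rw [smul_eq_C_mul, smul_eq_C_mul]
    simp only [hF, zero_add, pow_one]
    ring
  have h3 : (1 - C (1 - x) * X) * (yr (1 - x) : PowerSeries R) = 1 := one_sub_mul_yr _
  have e3 : (C (1 - p * x) : PowerSeries R) = C (1 - x) - C (x * (p - 1)) := by
    rw [← map_sub]; congr 1; ring
  have e4 : (C (p * x) : PowerSeries R) = C (x * p) := by rw [mul_comm]
  rw [e3, e4]
  linear_combination (-(1 - C (1 - x) * X)) * h2 - (1 - C (1 - x) * X) * h1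
    + (-(C (x * p) * X * y) + rescale (1 - x) (hh N x p)
      - C (x * (p - 1)) * X * hh N x p) * h3

theorem main {N : ℕ} {x : R} (hx : x ^ (N + 1) = 0) (p v ri : R) (hri : ri * (1 - x) = 1) :
    ZZ N x p (fun _ _ S => v ^ #S) = p * v * x * dbl (N + 1) ri x p v := by
  have hN : 0 < N + 1 := Nat.succ_pos _
  have hz := z_func (hh_eq hx p)
  have hL := L_z hx hN v hri hz
  have hf := final_alg hx p v hz
  rw [hL, add_sub_cancel_right] at hf
  have h1 : (1 - x) * ZZ N x p (fun _ _ S => v ^ #S)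
      = ZZ N x p (PP (N + 1) x v) - x * ZZ N x p (ch (1 : R) (PP (N + 1) x v)) := by
    have e1 := ZZ_smul N x p (1 - x) (fun _ _ S => (v ^ #S : R))
    have e2 := ZZ_smul N x p x (ch (1 : R) (PP (N + 1) x v))
    simp only [smul_eq_mul] at e1 e2
    rw [← e1, ← e2, eq_sub_iff_add_eq, ← ZZ_add]
    refine ZZ_congr N x p fun c d S hc hS => ?_
    rw [PP_eq hx hN v c d S hc hS]; ring
  have h2 := ZZ_eq hx p (PP (N + 1) x v)
  have h3 : ZZ N x p (ch p (PP (N + 1) x v)) = ZZ N x p (ch (1 : R) (PP (N + 1) x v))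
      + (p - 1) * ZZ N x p (fun c d _ => Th (N + 1) x v 0 (c + d)) := by
    have e1 := ZZ_smul N x p (p - 1) (fun c d (_ : Finset ℕ) => Th (N + 1) x v 0 (c + d))
    simp only [smul_eq_mul] at e1
    rw [← e1, ← ZZ_add]
    refine ZZ_congr N x p fun c d S hc hS => ?_
    rw [ch_eq, smul_eq_mul]
    congr 2
    unfold PP
    simp
  have h4 : ZZ N x p (fun c d _ => Th (N + 1) x v 0 (c + d))
      = L (N + 1) (1 - x) (1 - v * x)
        (hh N x p * (C (v - 1) + C (1 - v * x) * yr (1 - x))) := by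
    have e1 := ZZ_map ((L (N + 1) (1 - x) (1 - v * x)).comp
      (LinearMap.mulRight R (C (v - 1) + C (1 - v * x) * yr (1 - x) : PowerSeries R))) N x p
      (fun c d _ => (y : PowerSeries R) ^ (c + d + 1))
    simp only [LinearMap.comp_apply, LinearMap.mulRight_apply] at e1
    rw [hh, e1]
    congr 1
    ext1 c; ext1 d; ext1 S
    rw [Th]; simp
  have h5 : PP (N + 1) x v 0 0 {0} = L (N + 1) (1 - x) (1 - v * x)
      (y * (C (v - 1) + C (1 - v * x) * yr (1 - x))) := by
    unfold PP Th; simp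
  have h6 : L (N + 1) (1 - x) (1 - v * x)
      ((C p * y + C (p - 1) * hh N x p) * (C (v - 1) + C (1 - v * x) * yr (1 - x)))
      = p * PP (N + 1) x v 0 0 {0}
        + (p - 1) * ZZ N x p (fun c d _ => Th (N + 1) x v 0 (c + d)) := by
    rw [h4, h5, add_mul, mul_assoc (C p), mul_assoc (C (p - 1)), map_add (L _ _ _), L_C_mul,
      L_C_mul]
  rw [h6] at hf
  rw [h3] at h2
  simp only [smul_eq_mul] at h2
  have h7 : (1 - x) * ZZ N x p (fun _ _ S => v ^ #S)
      = (1 - x) * (p * v * x * dbl (N + 1) ri x p v) := by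
    rw [h1]
    linear_combination h2 + hf
  have h8 := congrArg (fun t => ri * t) h7
  simp only [← mul_assoc, hri, one_mul] at h8
  linear_combination h8

end Pool.Agent.H176.Fish
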