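import Pool.Agent.H176.Fish.Alg2
import Pool.Agent.H176.Fish.Comb

namespace Pool.Agent.H176.Fish

open Finset PowerSeries

variable {R : Type*} [CommRing R]

section general

variable {M : Type*} [AddCommGroup M] [Module R M]

open Classical in
/-- weighted sum over the avoiders of size `n + 1`. -/
noncomputable def aa (n : ℕ) (p : R) (F : ℕ → ℕ → Finset ℕ → M) : M :=
  ∑ τ : Equiv.Perm (Fin (n + 1)), if Av τ then p ^ lrmax τ • F (cc τ) (dd τ) (RR τ) else 0

/-- sum over the children of a state. -/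
def ch (p : R) (F : ℕ → ℕ → Finset ℕ → M) (c d : ℕ) (S : Finset ℕ) : M :=
  ∑ i ∈ range (c + 1), (if i = 0 then p else 1) • F i (c + d - i) (insert i (S.filter (· < i)))
    + ∑ i ∈ range (d + 1), F (c + 1 + i) (d - i)
        (insert (c + 1 + i) (S.filter (· < c + 1 + i)))

theorem aa_succ (n : ℕ) (p : R) (F : ℕ → ℕ → Finset ℕ → M) :
    aa (n + 1) p F = aa n p (ch p F) := by
  classical
  unfold aa
  rw [sum_perm]
  refine sum_congr rfl fun τ _ => ?_
  by_cases hτ : Av τ
  · rw [if_pos hτ]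
    set g : ℕ → M := fun c' => p ^ (lrmax τ + if c' = 0 then 1 else 0) •
      F c' (KK τ + (if cc τ < c' then 1 else 0) - 2 - c')
        (insert c' ((RR τ).filter (· < c'))) with hg
    have h1 : ∀ j : Fin (n + 2), (if Av (app j τ) then
        p ^ lrmax (app j τ) • F (cc (app j τ)) (dd (app j τ)) (RR (app j τ)) else 0)
        = if (j : ℕ) ∈ sites τ then g (rk τ j) else 0 := by
      intro j
      by_cases hj : (j : ℕ) ∈ sites τ
      · rw [if_pos ((av_app j τ).2 ⟨hτ, hj⟩), if_pos hj, hg]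
        simp only
        rw [lrmax_app, cc_app, dd, KK_app, cc_app, RR_app]
        simp only [rk_eq_zero_iff]
      · rw [if_neg (fun h => hj ((av_app j τ).1 h).2), if_neg hj]
    rw [sum_congr rfl fun j _ => h1 j, sum_sites, KK_eq, sum_range_add, ch, smul_add]
    congr 1
    · rw [smul_sum]
      refine sum_congr rfl fun i hi => ?_
      have hi' : i < cc τ + 1 := mem_range.1 hi
      rw [hg]
      simp only
      rw [if_neg (show ¬ cc τ < i by omega), KK_eq,
        show cc τ + 1 + (dd τ + 1) + 0 - 2 - i = cc τ + dd τ - i by omega, smul_smul]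
      split_ifs
      · rw [pow_add, pow_one]
      · rw [add_zero, mul_one]
    · rw [smul_sum]
      refine sum_congr rfl fun i hi => ?_
      have hi' : i < dd τ + 1 := mem_range.1 hi
      rw [hg]
      simp only
      rw [if_pos (show cc τ < cc τ + 1 + i by omega), KK_eq,
        show cc τ + 1 + (dd τ + 1) + 1 - 2 - (cc τ + 1 + i) = dd τ - i by omega,
        if_neg (show ¬ cc τ + 1 + i = 0 by omega), add_zero]
  · rw [if_neg hτ]
    refine sum_eq_zero fun j _ => ?_
    rw [if_neg (fun h => hτ ((av_app j τ).1 h).1)]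

theorem aa_zero (p : R) (F : ℕ → ℕ → Finset ℕ → M) : aa 0 p F = p • F 0 0 {0} := by
  unfold aa
  haveI : Unique (Equiv.Perm (Fin (0 + 1))) := (inferInstance : Unique (Equiv.Perm (Fin 1)))
  rw [Fintype.sum_unique]
  have hA : ∀ τ : Equiv.Perm (Fin (0 + 1)), Av τ := by
    intro τ i j k h _; exfalso; have := i.2; have := j.2; omega
  have h1 : ∀ τ : Equiv.Perm (Fin (0 + 1)), lrmax τ = 1 := by
    intro τ
    unfold lrmax
    rw [filter_true_of_mem]
    · simp
    · intro i _ m hm
      have := i.2; have := m.2; rw [Fin.lt_def] at hm; omega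
  have h2 : ∀ τ : Equiv.Perm (Fin (0 + 1)), sites τ = {0, 1} := by
    intro τ
    ext a
    rw [mem_sites]
    simp only [mem_insert, mem_singleton]
    constructor
    · rintro (h | ⟨i, _, h⟩)
      · exact Or.inl h
      · right; have := (τ i).2; omega
    · rintro (h | h)
      · exact Or.inl h
      · exact Or.inr ⟨_, last_mem_tops τ, by have := (τ (Fin.last 0)).2; omega⟩
  have h3 : ∀ τ : Equiv.Perm (Fin (0 + 1)), cc τ = 0 := by
    intro τ
    rw [cc, rk, h2, card_eq_zero, filter_eq_empty_iff]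
    intro t ht
    simp only [mem_insert, mem_singleton] at ht
    omega
  have h4 : ∀ τ : Equiv.Perm (Fin (0 + 1)), dd τ = 0 := by
    intro τ
    rw [dd, h3, KK, h2]; rfl
  have h5 : ∀ τ : Equiv.Perm (Fin (0 + 1)), RR τ = {0} := by
    intro τ
    ext a
    rw [mem_singleton]
    constructor
    · intro h
      have := le_cc τ h
      rw [h3] at this; omega
    · rintro rfl
      have := cc_mem_RR τ
      rwa [h3] at this
  rw [if_pos (hA _), h1, h3, h4, h5, pow_one]

/-- the generating function up to order `N`. -/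
noncomputable def ZZ (N : ℕ) (x p : R) (F : ℕ → ℕ → Finset ℕ → M) : M :=
  ∑ n ∈ range N, x ^ (n + 1) • aa n p F

theorem ZZ_eq {N : ℕ} {x : R} (hx : x ^ (N + 1) = 0) (p : R) (F : ℕ → ℕ → Finset ℕ → M) :
    ZZ N x p F = (x * p) • F 0 0 {0} + x • ZZ N x p (ch p F) := by
  have h1 : ∑ n ∈ range (N + 1), x ^ (n + 1) • aa n p F = ZZ N x p F := by
    rw [sum_range_succ, hx, zero_smul, add_zero, ZZ]
  rw [← h1, sum_range_succ', zero_add, pow_one, aa_zero, smul_smul, ZZ, smul_sum, add_comm]
  congr 1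
  refine sum_congr rfl fun n _ => ?_
  rw [aa_succ, smul_smul]; ring_nf

theorem aa_congr (n : ℕ) (p : R) {F G : ℕ → ℕ → Finset ℕ → M}
    (h : ∀ c d S, c ∈ S → (∀ s ∈ S, s ≤ c) → F c d S = G c d S) : aa n p F = aa n p G := by
  unfold aa
  refine sum_congr rfl fun τ _ => ?_
  rw [h _ _ _ (cc_mem_RR τ) (fun s hs => le_cc τ hs)]

theorem ZZ_congr (N : ℕ) (x p : R) {F G : ℕ → ℕ → Finset ℕ → M}
    (h : ∀ c d S, c ∈ S → (∀ s ∈ S, s ≤ c) → F c d S = G c d S) : ZZ N x p F = ZZ N x p G := by
  unfold ZZ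
  exact sum_congr rfl fun n _ => by rw [aa_congr n p h]

theorem aa_map {M' : Type*} [AddCommGroup M'] [Module R M'] (f : M →ₗ[R] M') (n : ℕ) (p : R)
    (F : ℕ → ℕ → Finset ℕ → M) : f (aa n p F) = aa n p fun c d S => f (F c d S) := by
  unfold aa
  rw [map_sum]
  refine sum_congr rfl fun τ _ => ?_
  split_ifs
  · rw [map_smul]
  · rw [map_zero]

theorem ZZ_map {M' : Type*} [AddCommGroup M'] [Module R M'] (f : M →ₗ[R] M') (N : ℕ) (x p : R)
    (F : ℕ → ℕ → Finset ℕ → M) : f (ZZ N x p F) = ZZ N x p fun c d S => f (F c d S) := by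
  unfold ZZ
  rw [map_sum]
  refine sum_congr rfl fun n _ => ?_
  rw [map_smul, aa_map]

theorem aa_add (n : ℕ) (p : R) (F G : ℕ → ℕ → Finset ℕ → M) :
    aa n p (fun c d S => F c d S + G c d S) = aa n p F + aa n p G := by
  unfold aa
  rw [← sum_add_distrib]
  refine sum_congr rfl fun τ _ => ?_
  split_ifs
  · rw [smul_add]
  · rw [add_zero]

theorem ZZ_add (N : ℕ) (x p : R) (F G : ℕ → ℕ → Finset ℕ → M) :
    ZZ N x p (fun c d S => F c d S + G c d S) = ZZ N x p F + ZZ N x p G := by
  unfold ZZ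
  rw [← sum_add_distrib]
  refine sum_congr rfl fun n _ => ?_
  rw [aa_add, smul_add]

theorem aa_smul (n : ℕ) (p a : R) (F : ℕ → ℕ → Finset ℕ → M) :
    aa n p (fun c d S => a • F c d S) = a • aa n p F := by
  unfold aa
  rw [smul_sum]
  refine sum_congr rfl fun τ _ => ?_
  split_ifs
  · rw [smul_comm]
  · rw [smul_zero]

theorem ZZ_smul (N : ℕ) (x p a : R) (F : ℕ → ℕ → Finset ℕ → M) :
    ZZ N x p (fun c d S => a • F c d S) = a • ZZ N x p F := by
  unfold ZZ
  rw [smul_sum]
  refine sum_congr rfl fun n _ => ?_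
  rw [aa_smul, smul_comm]

theorem ch_eq (p : R) (F : ℕ → ℕ → Finset ℕ → M) (c d : ℕ) (S : Finset ℕ) :
    ch p F c d S = ch (1 : R) F c d S + (p - 1) • F 0 (c + d) {0} := by
  unfold ch
  rw [sum_range_succ', sum_range_succ' (fun i => (if i = 0 then (1 : R) else 1) •
    F i (c + d - i) (insert i (S.filter (· < i))))]
  simp only [if_true, Nat.add_eq_zero_iff, one_ne_zero, and_false, if_false]
  have e : insert 0 (S.filter (· < 0)) = ({0} : Finset ℕ) := by
    ext a; simp
  rw [e, Nat.sub_zero, sub_smul]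
  abel

end general

end Pool.Agent.H176.Fish
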